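import Pool.Agent.U172.FM.Gen

/-!
# Subquotients on which the group acts by a character
-/

set_option autoImplicit false
set_option linter.unusedSectionVars false

namespace Pool.Agent.U172.FM

open IsLocalRing Matrix

section lim

variable {A : Type*} [CommRing A] [IsLocalRing A] [IsNoetherianRing A] {n : ℕ}
variable {G : Type*} [Group G]
variable {E : Type*} [Field E] [Algebra A E]

/-- limits -/
lemma lim_aux (ρ : G →* GL (Fin n) A) (W : Submodule E (Fin n → E)) (w : Fin n → E)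
    (M₀ : Matrix (Fin n) (Fin n) A) {y : G}
    (hy : ∀ m : ℕ, ∃ δ : G, act E ρ δ w - (M₀.map (algebraMap A E)) *ᵥ w ∈ W ∧
      δ⁻¹ * y ∈ cong ρ m) :
    act E ρ y w - (M₀.map (algebraMap A E)) *ᵥ w ∈ W := by
  -- the linear map from the matrices over `A` to the quotient
  let φ : Matrix (Fin n) (Fin n) A →ₗ[A] ((Fin n → E) ⧸ W) :=
    { toFun := fun M => W.mkQ ((M.map (algebraMap A E)) *ᵥ w)
      map_add' := fun M N => by
        rw [← map_add, ← add_mulVec]
        congr 2
        ext i j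
        simp
      map_smul' := fun a M => by
        have e1 : (a • M).map (algebraMap A E) = algebraMap A E a • M.map (algebraMap A E) := by
          ext i j
          rw [Matrix.map_apply, Matrix.smul_apply, Matrix.smul_apply, Matrix.map_apply,
            smul_eq_mul, smul_eq_mul, map_mul]
        rw [RingHom.id_apply, e1, smul_mulVec, map_smul, algebraMap_smul] }
  have hφ : ∀ M, φ M = W.mkQ ((M.map (algebraMap A E)) *ᵥ w) := fun M => rfl
  have hfin : Module.Finite A (LinearMap.range φ) := inferInstance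
  have h1 := Ideal.iInf_pow_smul_eq_bot_of_isLocalRing (R := A) (M := LinearMap.range φ)
    (maximalIdeal A) (Ideal.IsPrime.ne_top inferInstance)
  have h2 : (⟨φ ((ρ y : Matrix (Fin n) (Fin n) A) - M₀), ⟨_, rfl⟩⟩ : LinearMap.range φ) ∈
      (⨅ i : ℕ, maximalIdeal A ^ i • ⊤ : Submodule A (LinearMap.range φ)) := by
    rw [Submodule.mem_iInf]
    intro m
    obtain ⟨δ, hδ, hu⟩ := hy m
    have h3 : φ (ρ δ : Matrix (Fin n) (Fin n) A) = φ M₀ := by
      rw [hφ, hφ]
      exact (Submodule.Quotient.eq W).2 hδ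
    have e : (ρ y : Matrix (Fin n) (Fin n) A) - (ρ δ : Matrix (Fin n) (Fin n) A) =
        (ρ δ : Matrix (Fin n) (Fin n) A) *
          ((ρ (δ⁻¹ * y) : Matrix (Fin n) (Fin n) A) - 1) := by
      rw [mul_sub, mul_one, ← Units.val_mul, ← map_mul, mul_inv_cancel_left]
    have h4 : InI (maximalIdeal A ^ m)
        ((ρ y : Matrix (Fin n) (Fin n) A) - (ρ δ : Matrix (Fin n) (Fin n) A)) := by
      rw [e]
      exact (mem_cong.1 hu).mulL _
    set Z := (ρ y : Matrix (Fin n) (Fin n) A) - (ρ δ : Matrix (Fin n) (Fin n) A) with hZ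
    have h5 : (⟨φ ((ρ y : Matrix (Fin n) (Fin n) A) - M₀), ⟨_, rfl⟩⟩ : LinearMap.range φ) =
        ∑ i, ∑ j, Z i j • (⟨φ (Matrix.single i j 1), ⟨_, rfl⟩⟩ : LinearMap.range φ) := by
      apply Subtype.ext
      have h6 : φ ((ρ y : Matrix (Fin n) (Fin n) A) - M₀) = φ Z := by
        rw [hZ, map_sub, map_sub, h3]
      have h7 : Z = ∑ i, ∑ j, Z i j • Matrix.single i j 1 := by
        conv_lhs => rw [Matrix.matrix_eq_sum_single Z]
        refine Finset.sum_congr rfl fun i _ => Finset.sum_congr rfl fun j _ => ?_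
        rw [Matrix.smul_single, smul_eq_mul, mul_one]
      show φ ((ρ y : Matrix (Fin n) (Fin n) A) - M₀) = _
      rw [h6]
      conv_lhs => rw [h7]
      simp only [map_sum, map_smul, AddSubmonoidClass.coe_finsetSum, Submodule.coe_smul]
    rw [h5]
    exact Submodule.sum_mem _ fun i _ => Submodule.sum_mem _ fun j _ =>
      Submodule.smul_mem_smul (h4 i j) trivial
  rw [h1, Submodule.mem_bot] at h2
  have h3 := congrArg Subtype.val h2
  have h4 : φ ((ρ y : Matrix (Fin n) (Fin n) A)) = φ M₀ := by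
    rw [← sub_eq_zero, ← map_sub]
    exact h3
  rw [hφ, hφ] at h4
  exact (Submodule.Quotient.eq W).1 h4

/-- the elements which stabilize `W'` and act trivially on `W` modulo `W'` -/
def fixq (ρ : G →* GL (Fin n) A) (W W' : Submodule E (Fin n → E)) : Subgroup G where
  carrier := {g | g ∈ stb ρ W' ∧ ∀ w ∈ W, act E ρ g w - w ∈ W'}
  mul_mem' := by
    rintro a b ⟨ha, ha'⟩ ⟨hb, hb'⟩
    refine ⟨mul_mem ha hb, fun w hw => ?_⟩
    have h1 := (ha _).1 (hb' w hw)
    have h2 := W'.add_mem h1 (ha' w hw)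
    rw [map_sub] at h2
    rw [act_mul]
    convert h2 using 1
    abel
  one_mem' := by
    refine ⟨one_mem _, fun w _ => ?_⟩
    rw [act_one, sub_self]
    exact W'.zero_mem
  inv_mem' := by
    rintro a ⟨ha, ha'⟩
    refine ⟨inv_mem ha, fun w hw => ?_⟩
    have h1 := ((inv_mem ha : a⁻¹ ∈ stb ρ W') _).1 (ha' w hw)
    rw [map_sub, ← act_mul, inv_mul_cancel, act_one] at h1
    have h2 := W'.neg_mem h1
    rwa [neg_sub] at h2

lemma fixq_of_lim (ρ : G →* GL (Fin n) A) (W W' : Submodule E (Fin n → E)) {x : G}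
    (hx : ∀ m : ℕ, ∃ δ ∈ fixq ρ W W', δ⁻¹ * x ∈ cong ρ m) : x ∈ fixq ρ W W' := by
  refine ⟨stb_of_lim ρ W' (D' := fixq ρ W W') (fun g hg => hg.1) hx, fun w hw => ?_⟩
  have e : ((1 : Matrix (Fin n) (Fin n) A).map (algebraMap A E)) *ᵥ w = w := by
    rw [Matrix.map_one _ (map_zero _) (map_one _), one_mulVec]
  have h := lim_aux ρ W' w 1 (y := x) (fun m => by
    obtain ⟨δ, hδ, h⟩ := hx m
    refine ⟨δ, ?_, h⟩
    rw [e]
    exact hδ.2 w hw)
  rwa [e] at h

end lim

section main

variable {G : Type*} [Group G] [TopologicalSpace G] [IsTopologicalGroup G] [CompactSpace G]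
variable {A : Type*} [CommRing A] [IsLocalRing A] [IsNoetherianRing A] [TopologicalSpace A] {n : ℕ}

variable {p : ℕ} [hp : Fact p.Prime] {R : Set G} {C U X H : Subgroup G} (hU : PExt p R C U)
    (hUH : U ≤ H) (hR : ∀ c ∈ C, ∀ τ ∈ R, c * τ * c⁻¹ ∈ R) (hX : Det p R C X)
    (hA : IsAdic (maximalIdeal A)) (hpA : (p : A) ∈ maximalIdeal A) {ρ : H →* GL (Fin n) A}
    (hρ : Continuous ρ)
    (hres : ∀ g : H, (g : G) ∈ C → ∃ N : ℕ,
      InI (maximalIdeal A) (((ρ g : Matrix (Fin n) (Fin n) A) - 1) ^ N))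
    (hram : ∀ g : H, (g : G) ∈ R → ρ g = 1)

include hU hUH hR hX hA hpA hρ hres hram

/-- **trivial action on a subquotient** -/
theorem potFix {E : Type*} [Field E] [Algebra A E] (W W' : Submodule E (Fin n → E))
    (h : (fixq ρ W W').relIndex (X.subgroupOf H) ≠ 0) : ∃ m, cong ρ m ≤ fixq ρ W W' := by
  have h1 := closedSub hU hUH hR hX hA hpA hρ hres hram (fixq ρ W W')
    (fun x hx => fixq_of_lim ρ W W' hx) h
  exact cong_le_of_lim ρ (fixq ρ W W') h1 (fun x hx => fixq_of_lim ρ W W' hx)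

/-- a fixed vector of an irreducible representation -/
theorem potVec {E : Type*} [Field E] [Algebra A E] {v : Fin n → E} (hv : v ≠ 0)
    (hirr : ∀ W : Submodule E (Fin n → E), (∀ g, ∀ w ∈ W, act E ρ g w ∈ W) → W = ⊥ ∨ W = ⊤)
    (h : (fixq ρ (Submodule.span E {v}) ⊥).relIndex (X.subgroupOf H) ≠ 0) :
    ∃ m, ∀ g ∈ cong ρ m, ∀ w : Fin n → E, act E ρ g w = w := by
  obtain ⟨m, hm⟩ := potFix hU hUH hR hX hA hpA hρ hres hram _ _ h
  refine ⟨m, ?_⟩
  let F : Submodule E (Fin n → E) :=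
    { carrier := {w | ∀ g ∈ cong ρ m, act E ρ g w = w}
      add_mem' := fun {a b} ha hb g hg => by rw [map_add, ha g hg, hb g hg]
      zero_mem' := fun g _ => map_zero _
      smul_mem' := fun c a ha g hg => by rw [map_smul, ha g hg] }
  have hF : F = ⊥ ∨ F = ⊤ := by
    refine hirr F fun g w hw k hk => ?_
    have h1 : g⁻¹ * k * g ∈ cong ρ m := by
      have := (cong_normal ρ m).conj_mem k hk g⁻¹
      rwa [inv_inv] at this
    have h2 := hw _ h1
    have h3 : k * g = g * (g⁻¹ * k * g) := by group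
    rw [← act_mul, h3, act_mul, h2]
  rcases hF with hF | hF
  · exfalso
    have : v ∈ F := fun g hg => by
      have h1 := (hm hg).2 v (Submodule.mem_span_singleton_self v)
      rw [Submodule.mem_bot, sub_eq_zero] at h1
      exact h1
    rw [hF, Submodule.mem_bot] at this
    exact hv this
  · intro g hg w
    have : w ∈ F := by rw [hF]; trivial
    exact this g hg

end main

section twist

variable {A : Type*} [CommRing A] [IsLocalRing A] [IsNoetherianRing A] {n : ℕ} {H : Type*} [Group H]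

/-- scalar matrices -/
noncomputable def sc (A : Type*) [CommRing A] (n : ℕ) : Aˣ →* GL (Fin n) A :=
  Units.map (Matrix.scalar (Fin n)).toMonoidHom

lemma sc_comm (u : Aˣ) (M : GL (Fin n) A) : sc A n u * M = M * sc A n u := by
  apply Units.ext
  exact (Matrix.scalar_commute (u : A) (fun r' => mul_comm _ _) (M : Matrix (Fin n) (Fin n) A)).eq

/-- the twist of `ρ` by the inverse of `χ` -/
noncomputable def tw (ρ : H →* GL (Fin n) A) (χ : H →* Aˣ) : H →* GL (Fin n) A where
  toFun g := sc A n (χ g)⁻¹ * ρ g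
  map_one' := by simp
  map_mul' g h := by
    have h1 : (χ (g * h))⁻¹ = (χ g)⁻¹ * (χ h)⁻¹ := by
      rw [map_mul, _root_.mul_inv_rev, mul_comm]
    have h2 := sc_comm (χ h)⁻¹ (ρ g)
    rw [h1, map_mul, map_mul]
    calc sc A n (χ g)⁻¹ * sc A n (χ h)⁻¹ * (ρ g * ρ h) =
        sc A n (χ g)⁻¹ * (sc A n (χ h)⁻¹ * ρ g) * ρ h := by group
      _ = sc A n (χ g)⁻¹ * (ρ g * sc A n (χ h)⁻¹) * ρ h := by rw [h2]
      _ = _ := by group

lemma tw_val (ρ : H →* GL (Fin n) A) (χ : H →* Aˣ) (g : H) :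
    (tw ρ χ g : Matrix (Fin n) (Fin n) A) =
      ((χ g)⁻¹ : Aˣ).val • (ρ g : Matrix (Fin n) (Fin n) A) := by
  show ((sc A n (χ g)⁻¹ : GL (Fin n) A) : Matrix (Fin n) (Fin n) A) *
    (ρ g : Matrix (Fin n) (Fin n) A) = _
  have : ((sc A n (χ g)⁻¹ : GL (Fin n) A) : Matrix (Fin n) (Fin n) A) =
    Matrix.scalar (Fin n) (((χ g)⁻¹ : Aˣ) : A) := rfl
  rw [this, Matrix.scalar_apply, ← Matrix.smul_eq_diagonal_mul]

lemma tw_act {E : Type*} [Field E] [Algebra A E] (ρ : H →* GL (Fin n) A) (χ : H →* Aˣ) (g : H)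
    (v : Fin n → E) :
    act E (tw ρ χ) g v = algebraMap A E (((χ g)⁻¹ : Aˣ) : A) • act E ρ g v := by
  rw [act_apply, act_apply, tw_val, ← Matrix.smul_mulVec]
  congr 1
  ext i j
  simp

lemma tw_cont [TopologicalSpace H] [TopologicalSpace A] (hA : IsAdic (maximalIdeal A))
    {ρ : H →* GL (Fin n) A} {χ : H →* Aˣ} (hρ : Continuous ρ) (hχ : Continuous χ) :
    Continuous (tw ρ χ) := by
  have hring : IsTopologicalRing A := by
    have h := (maximalIdeal A).nonarchimedean
    have e : ‹TopologicalSpace A› = (maximalIdeal A).adicTopology := hA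
    rw [← e] at h
    exact h.toIsTopologicalRing
  have h1 : Continuous (sc A n) := by
    refine Continuous.units_map _ ?_
    show Continuous fun a : A => Matrix.scalar (Fin n) a
    simp only [Matrix.scalar_apply]
    exact Continuous.matrix_diagonal (continuous_pi fun _ => continuous_id)
  have h2 : Continuous fun g => sc A n (χ g)⁻¹ * ρ g := (h1.comp hχ.inv).mul hρ
  exact h2

lemma tw_res {ρ : H →* GL (Fin n) A} {χ : H →* Aˣ} {g : H} {N : ℕ}
    (h : InI (maximalIdeal A) (((ρ g : Matrix (Fin n) (Fin n) A) - 1) ^ N))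
    (hχ : (χ g : A) - 1 ∈ maximalIdeal A) :
    InI (maximalIdeal A) (((tw ρ χ g : Matrix (Fin n) (Fin n) A) - 1) ^ N) := by
  have key : ∀ M : Matrix (Fin n) (Fin n) A, InI (maximalIdeal A) M ↔
      (IsLocalRing.residue A).mapMatrix M = 0 := by
    intro M
    constructor
    · intro h
      ext i j
      exact (IsLocalRing.residue_eq_zero_iff _).2 (h i j)
    · intro h i j
      have := congrFun (congrFun h i) j
      exact (IsLocalRing.residue_eq_zero_iff _).1 this
  rw [key, map_pow, map_sub] at h ⊢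
  have h1 : (IsLocalRing.residue A).mapMatrix (tw ρ χ g : Matrix (Fin n) (Fin n) A) =
      (IsLocalRing.residue A).mapMatrix (ρ g : Matrix (Fin n) (Fin n) A) := by
    have h2 : IsLocalRing.residue A ((χ g : Aˣ) : A) = 1 := by
      have := (IsLocalRing.residue_eq_zero_iff _).2 hχ
      rwa [map_sub, map_one, sub_eq_zero] at this
    have h3 : IsLocalRing.residue A (((χ g)⁻¹ : Aˣ) : A) = 1 := by
      have h4 : IsLocalRing.residue A (((χ g)⁻¹ : Aˣ) : A) * IsLocalRing.residue A ((χ g : Aˣ) : A) =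
          1 := by
        rw [← map_mul, Units.inv_mul, map_one]
      rwa [h2, mul_one] at h4
    rw [tw_val]
    ext i j
    simp only [RingHom.mapMatrix_apply, Matrix.map_apply, Matrix.smul_apply, smul_eq_mul, map_mul,
      h3, one_mul]
  rw [h1]
  exact h

end twist

end Pool.Agent.U172.FM
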