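import Pool.Agent.U172.FM.NT

/-!
# The extension generated by the roots of unity of order `p`
-/

set_option autoImplicit false

namespace Pool.Agent.U172.FM

open NumberField Pool.Agent.W569.FM Pool.Agent.W569.UF Pool.Agent.W569.UH

lemma exists_exp {p : ℕ} (hp : p.Prime) (g : GF ℚ) :
    ∃ m : ℕ, (m : ZMod p) ≠ 0 ∧ ∀ z : AlgebraicClosure ℚ, z ^ p = 1 → g z = z ^ m := by
  have : Fact p.Prime := ⟨hp⟩
  have hp0 : NeZero (p : AlgebraicClosure ℚ) := ⟨by exact_mod_cast hp.ne_zero⟩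
  obtain ⟨ζ, hζ⟩ := HasEnoughRootsOfUnity.exists_primitiveRoot (AlgebraicClosure ℚ) p
  have h1 : (g ζ) ^ p = 1 := by rw [← map_pow, hζ.pow_eq_one, map_one]
  obtain ⟨m, -, hm⟩ := hζ.eq_pow_of_pow_eq_one h1
  refine ⟨m, fun h0 => ?_, fun z hz => ?_⟩
  · rw [ZMod.natCast_eq_zero_iff] at h0
    have h2 : ζ ^ m = 1 := (hζ.pow_eq_one_iff_dvd m).2 h0
    rw [h2] at hm
    have h3 : g ζ = 1 := hm.symm
    have h4 : ζ = 1 := by
      apply g.injective
      rw [h3, map_one]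
    exact hζ.ne_one hp.one_lt h4
  · obtain ⟨i, -, rfl⟩ := hζ.eq_pow_of_pow_eq_one hz
    rw [map_pow, ← hm, ← pow_mul, ← pow_mul, mul_comm]

lemma comm_HH {p : ℕ} (hp : p.Prime) (a b : GF ℚ) : a * b * a⁻¹ * b⁻¹ ∈ HH p := by
  rw [mem_HH]
  intro z hz
  obtain ⟨m, -, hm⟩ := exists_exp hp a
  obtain ⟨l, -, hl⟩ := exists_exp hp b
  set w := (b * a)⁻¹ z with hw
  have hw1 : w ^ p = 1 := by rw [hw, ← map_pow, hz, map_one]
  have hz2 : (b * a) w = z := by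
    show ((b * a) * (b * a)⁻¹) z = z
    rw [mul_inv_cancel]
    rfl
  have h1 : (a * b * a⁻¹ * b⁻¹) z = (a * b) w := by
    rw [hw, mul_inv_rev]
    rfl
  rw [h1, ← hz2]
  show a (b w) = b (a w)
  rw [hl w hw1, hm w hw1, map_pow, map_pow, hm w hw1, hl w hw1, ← pow_mul, ← pow_mul, mul_comm]

lemma pow_HH {p : ℕ} (hp : p.Prime) (a : GF ℚ) : a ^ (p - 1) ∈ HH p := by
  have : Fact p.Prime := ⟨hp⟩
  rw [mem_HH]
  intro z hz
  obtain ⟨m, hm0, hm⟩ := exists_exp hp a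
  have h1 : ∀ k : ℕ, (a ^ k) z = z ^ (m ^ k) := by
    intro k
    induction k with
    | zero => simp
    | succ k ih =>
      rw [pow_succ']
      show a ((a ^ k) z) = _
      rw [ih, map_pow, hm z hz, ← pow_mul, ← pow_succ']
  rw [h1]
  have h2 : (m ^ (p - 1)) ≡ 1 [MOD p] := by
    rw [← ZMod.natCast_eq_natCast_iff]
    push_cast
    exact ZMod.pow_card_sub_one_eq_one hm0
  have h3 : z ^ (m ^ (p - 1)) = z ^ 1 := by
    rw [← Nat.mod_add_div (m ^ (p - 1)) p, h2, pow_add, pow_mul, hz, one_pow, mul_one]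
    rw [Nat.mod_eq_of_lt hp.one_lt]
  rw [h3, pow_one]

end Pool.Agent.U172.FM
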