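import Pool.Agent.U172.FM.Cong

/-!
# Subgroups which detect the homomorphisms to `ℤ/p`
-/

set_option autoImplicit false
set_option linter.unusedSectionVars false

namespace Pool.Agent.U172.FM

open IsLocalRing Matrix

/-- a proper subgroup of a finite `p`-group is contained in the kernel of a nontrivial homomorphism
to `ℤ/p` -/
lemma exists_hom {P : Type*} [Group P] [Finite P] {p : ℕ} [hp : Fact p.Prime] (hP : IsPGroup p P)
    {Q : Subgroup P} (hQ : Q ≠ ⊤) :
    ∃ f : P →* Multiplicative (ZMod p), (∀ q ∈ Q, f q = 1) ∧ ∃ g, f g ≠ 1 := by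
  classical
  obtain h | ⟨M, hM, hQM⟩ := eq_top_or_exists_le_coatom Q
  · exact absurd h hQ
  have hnil := hP.isNilpotent
  have hMn : M.Normal := Subgroup.NormalizerCondition.normal_of_coatom M Group.normalizerCondition_of_isNilpotent hM
  have hPM : IsPGroup p (P ⧸ M) := hP.to_quotient M
  have hnt : Nontrivial (P ⧸ M) := by
    by_contra hcon
    rw [not_nontrivial_iff_subsingleton] at hcon
    apply hM.1
    rw [eq_top_iff]
    intro g _
    exact (QuotientGroup.eq_one_iff g).1 (Subsingleton.elim _ _)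
  have hcyc : ∀ z : P ⧸ M, z ≠ 1 → Subgroup.zpowers z = ⊤ := by
    intro z hz
    have h1 : M < (Subgroup.zpowers z).comap (QuotientGroup.mk' M) := by
      refine lt_of_le_of_ne (fun x hx => ?_) fun h => hz ?_
      · rw [Subgroup.mem_comap]
        have : QuotientGroup.mk' M x = 1 := (QuotientGroup.eq_one_iff x).2 hx
        rw [this]
        exact one_mem _
      · obtain ⟨y, rfl⟩ := QuotientGroup.mk'_surjective M z
        refine (QuotientGroup.eq_one_iff y).2 ?_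
        rw [h]
        exact Subgroup.mem_zpowers _
    have h2 := hM.2 _ h1
    rw [eq_top_iff]
    intro y _
    obtain ⟨y, rfl⟩ := QuotientGroup.mk'_surjective M y
    have : y ∈ (Subgroup.zpowers z).comap (QuotientGroup.mk' M) := by rw [h2]; trivial
    exact this
  have hcard : Nat.card (P ⧸ M) = p := by
    obtain ⟨n, hn⟩ := IsPGroup.iff_card.1 hPM
    have hn0 : n ≠ 0 := by
      rintro rfl
      rw [pow_zero] at hn
      have h1 := Finite.one_lt_card (α := P ⧸ M)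
      omega
    obtain ⟨z, hz⟩ := exists_prime_orderOf_dvd_card' p (G := P ⧸ M) (by
      rw [hn]
      exact dvd_pow_self p hn0)
    have hz1 : z ≠ 1 := by
      rintro rfl
      rw [orderOf_one] at hz
      exact hp.out.one_lt.ne hz
    rw [← hz, ← Nat.card_zpowers, hcyc z hz1, Subgroup.card_top]
  have hcard2 : Nat.card (Multiplicative (ZMod p)) = p := by
    rw [Nat.card_congr Multiplicative.toAdd, Nat.card_zmod]
  let e : (P ⧸ M) ≃* Multiplicative (ZMod p) := mulEquivOfPrimeCardEq hcard hcard2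
  refine ⟨e.toMonoidHom.comp (QuotientGroup.mk' M), fun q hq => ?_, ?_⟩
  · have : QuotientGroup.mk' M q = 1 := (QuotientGroup.eq_one_iff q).2 (hQM hq)
    show e (QuotientGroup.mk' M q) = 1
    rw [this, map_one]
  · obtain ⟨z, hz⟩ := exists_ne (1 : P ⧸ M)
    obtain ⟨y, rfl⟩ := QuotientGroup.mk'_surjective M z
    refine ⟨y, fun h => hz ?_⟩
    have h1 : e (QuotientGroup.mk' M y) = 1 := h
    exact e.map_eq_one_iff.1 h1

section top

variable {G : Type*} [Group G] [TopologicalSpace G] [IsTopologicalGroup G] [CompactSpace G]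

/-- `U` is an open normal subgroup of `C` which contains the elements of `C` in `R`, and `C / U` is a
`p`-group -/
structure PExt (p : ℕ) (R : Set G) (C U : Subgroup G) : Prop where
  le : U ≤ C
  isOpen : IsOpen (U : Set G)
  normal : ∀ c ∈ C, ∀ u ∈ U, c * u * c⁻¹ ∈ U
  pow : ∀ c ∈ C, ∃ a : ℕ, c ^ p ^ a ∈ U
  ram : ∀ τ ∈ C, τ ∈ R → τ ∈ U

/-- the subgroup `X` of `G` detects the homomorphisms from `C` to `ℤ/p` trivial on `R` -/
def Det (p : ℕ) (R : Set G) (C X : Subgroup G) : Prop :=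
  ∀ f : C →* Multiplicative (ZMod p), IsOpen (f.ker : Set C) →
    (∀ τ : C, (τ : G) ∈ R → f τ = 1) → (∀ τ : C, (τ : G) ∈ X → f τ = 1) → ∀ g, f g = 1

lemma finIdx_of_open {U : Subgroup G} (hU : IsOpen (U : Set G)) : U.FiniteIndex := by
  have := Subgroup.quotient_finite_of_isOpen U hU
  exact Subgroup.finiteIndex_of_finite_quotient

/-- **Frattini**: surjectivity -/
theorem surj {p : ℕ} [hp : Fact p.Prime] {R : Set G} {C U X : Subgroup G} (hU : PExt p R C U)
    (hX : Det p R C X) {g : G} (hg : g ∈ C) : ∃ δ ∈ X ⊓ C, δ⁻¹ * g ∈ U := by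
  classical
  have hUf := finIdx_of_open hU.isOpen
  have hn : (U.subgroupOf C).Normal := ⟨fun n hn g => by
    rw [Subgroup.mem_subgroupOf] at hn ⊢
    push_cast
    exact hU.normal g g.2 n hn⟩
  have hf : (U.subgroupOf C).FiniteIndex := inferInstance
  have hfin : Finite (C ⧸ U.subgroupOf C) := Subgroup.finite_quotient_of_finiteIndex
  have hP : IsPGroup p (C ⧸ U.subgroupOf C) := by
    intro x
    obtain ⟨c, rfl⟩ := QuotientGroup.mk_surjective x
    obtain ⟨k, hk⟩ := hU.pow c c.2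
    refine ⟨k, ?_⟩
    rw [← QuotientGroup.mk_pow, QuotientGroup.eq_one_iff, Subgroup.mem_subgroupOf]
    exact_mod_cast hk
  set Q : Subgroup (C ⧸ U.subgroupOf C) := (X.subgroupOf C).map (QuotientGroup.mk' (U.subgroupOf C))
    with hQ
  by_cases h : Q = ⊤
  · have h1 : QuotientGroup.mk' (U.subgroupOf C) ⟨g, hg⟩ ∈ Q := by rw [h]; trivial
    obtain ⟨δ, hδ, hδg⟩ := h1
    refine ⟨δ, ⟨hδ, δ.2⟩, ?_⟩
    have h2 := QuotientGroup.eq.1 hδg
    rw [Subgroup.mem_subgroupOf] at h2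
    exact h2
  · exfalso
    obtain ⟨f, hf1, y, hf2⟩ := exists_hom hP h
    obtain ⟨y, rfl⟩ := QuotientGroup.mk'_surjective _ y
    refine hf2 (hX (f.comp (QuotientGroup.mk' (U.subgroupOf C))) ?_ ?_ ?_ y)
    · refine Subgroup.isOpen_mono (H₁ := U.subgroupOf C) (fun x hx => ?_) ?_
      · have : QuotientGroup.mk' (U.subgroupOf C) x = 1 := (QuotientGroup.eq_one_iff x).2 hx
        show f (QuotientGroup.mk' (U.subgroupOf C) x) = 1
        rw [this, map_one]
      · exact hU.isOpen.preimage continuous_subtype_val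
    · intro τ hτ
      have : QuotientGroup.mk' (U.subgroupOf C) τ = 1 :=
        (QuotientGroup.eq_one_iff τ).2 (hU.ram τ τ.2 hτ)
      show f (QuotientGroup.mk' (U.subgroupOf C) τ) = 1
      rw [this, map_one]
    · intro τ hτ
      exact hf1 _ ⟨τ, hτ, rfl⟩

/-- refining a `p`-extension -/
lemma refinePExt {p : ℕ} [hp : Fact p.Prime] {R : Set G} {C U V : Subgroup G} (hU : PExt p R C U)
    (hR : ∀ c ∈ C, ∀ τ ∈ R, c * τ * c⁻¹ ∈ R)
    (hVU : V ≤ U) (hVo : IsOpen (V : Set G)) (hVn : ∀ u ∈ U, ∀ v ∈ V, u * v * u⁻¹ ∈ V)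
    (hVp : ∀ u ∈ U, ∃ a : ℕ, u ^ p ^ a ∈ V) (hVR : ∀ τ ∈ U, τ ∈ R → τ ∈ V) :
    ∃ V', V' ≤ V ∧ PExt p R C V' := by
  classical
  have hVC : V ≤ C := hVU.trans hU.le
  have hVf := finIdx_of_open hVo
  have hUf := finIdx_of_open hU.isOpen
  have hCo : IsOpen (C : Set G) := Subgroup.isOpen_mono hVC hVo
  -- uniform exponents
  obtain ⟨s, hs⟩ : ∃ s : ℕ, ∀ c ∈ C, c ^ p ^ s ∈ U := by
    have hn : (U.subgroupOf C).Normal := ⟨fun n hn g => by
      rw [Subgroup.mem_subgroupOf] at hn ⊢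
      push_cast
      exact hU.normal g g.2 n hn⟩
    have hf : (U.subgroupOf C).FiniteIndex := inferInstance
    have hfin : Finite (C ⧸ U.subgroupOf C) := Subgroup.finite_quotient_of_finiteIndex
    have hP : IsPGroup p (C ⧸ U.subgroupOf C) := by
      intro x
      obtain ⟨c, rfl⟩ := QuotientGroup.mk_surjective x
      obtain ⟨k, hk⟩ := hU.pow c c.2
      refine ⟨k, ?_⟩
      rw [← QuotientGroup.mk_pow, QuotientGroup.eq_one_iff, Subgroup.mem_subgroupOf]
      exact_mod_cast hk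
    obtain ⟨s, hs⟩ := IsPGroup.iff_card.1 hP
    refine ⟨s, fun c hc => ?_⟩
    have h1 := Subgroup.pow_index_mem (U.subgroupOf C) (⟨c, hc⟩ : C)
    rw [Subgroup.index_eq_card, hs, Subgroup.mem_subgroupOf] at h1
    exact_mod_cast h1
  obtain ⟨t, ht⟩ : ∃ t : ℕ, ∀ u ∈ U, u ^ p ^ t ∈ V := by
    have hn : (V.subgroupOf U).Normal := ⟨fun n hn g => by
      rw [Subgroup.mem_subgroupOf] at hn ⊢
      push_cast
      exact hVn g g.2 n hn⟩
    have hf : (V.subgroupOf U).FiniteIndex := inferInstance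
    have hfin : Finite (U ⧸ V.subgroupOf U) := Subgroup.finite_quotient_of_finiteIndex
    have hP : IsPGroup p (U ⧸ V.subgroupOf U) := by
      intro x
      obtain ⟨c, rfl⟩ := QuotientGroup.mk_surjective x
      obtain ⟨k, hk⟩ := hVp c c.2
      refine ⟨k, ?_⟩
      rw [← QuotientGroup.mk_pow, QuotientGroup.eq_one_iff, Subgroup.mem_subgroupOf]
      exact_mod_cast hk
    obtain ⟨s, hs⟩ := IsPGroup.iff_card.1 hP
    refine ⟨s, fun c hc => ?_⟩
    have h1 := Subgroup.pow_index_mem (V.subgroupOf U) (⟨c, hc⟩ : U)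
    rw [Subgroup.index_eq_card, hs, Subgroup.mem_subgroupOf] at h1
    exact_mod_cast h1
  -- the core
  set N : Subgroup C := (V.subgroupOf C).normalCore with hN
  have hVCf : (V.subgroupOf C).FiniteIndex := inferInstance
  have hNf : N.FiniteIndex := inferInstance
  have hNo : IsOpen (N : Set C) := by
    refine Subgroup.isOpen_of_isClosed_of_finiteIndex _ (Subgroup.normalCore_isClosed _ ?_)
    exact Subgroup.isClosed_of_isOpen _ (hVo.preimage continuous_subtype_val)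
  have hNmem : ∀ x : C, x ∈ N ↔ ∀ g : C, (g * x * g⁻¹ : C) ∈ V.subgroupOf C := fun x => Iff.rfl
  refine ⟨N.map C.subtype, ?_, ?_, ?_, ?_, ?_, ?_⟩
  · rintro _ ⟨x, hx, rfl⟩
    have := (V.subgroupOf C).normalCore_le hx
    rwa [Subgroup.mem_subgroupOf] at this
  · rintro _ ⟨x, -, rfl⟩
    exact x.2
  · exact hCo.isOpenEmbedding_subtypeVal.isOpenMap _ hNo
  · rintro c hc _ ⟨x, hx, rfl⟩
    exact ⟨⟨c, hc⟩ * x * ⟨c, hc⟩⁻¹, (V.subgroupOf C).normalCore_normal.conj_mem x hx ⟨c, hc⟩, rfl⟩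
  · intro c hc
    refine ⟨s + t, ⟨⟨c, hc⟩ ^ p ^ (s + t), ?_, rfl⟩⟩
    refine (hNmem _).2 ?_
    intro g
    rw [Subgroup.mem_subgroupOf]
    have e : (((g * (⟨c, hc⟩ : C) ^ p ^ (s + t) * g⁻¹ : C)) : G) =
        (((g : G) * c * (g : G)⁻¹) ^ p ^ s) ^ p ^ t := by
      rw [← pow_mul, ← pow_add, conj_pow]
      push_cast
      rfl
    rw [e]
    exact ht _ (hs _ (C.mul_mem (C.mul_mem g.2 hc) (C.inv_mem g.2)))
  · intro τ hτ hτR
    refine ⟨⟨τ, hτ⟩, ?_, rfl⟩
    refine (hNmem _).2 ?_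
    intro g
    rw [Subgroup.mem_subgroupOf]
    have h1 : (g : G) * τ * (g : G)⁻¹ ∈ R := hR g g.2 τ hτR
    have h2 : (g : G) * τ * (g : G)⁻¹ ∈ C := C.mul_mem (C.mul_mem g.2 hτ) (C.inv_mem g.2)
    exact hVR _ (hU.ram _ h2 h1) h1

variable {A : Type*} [CommRing A] [IsLocalRing A] [IsNoetherianRing A] [TopologicalSpace A] {n : ℕ}

/-- **density** -/
theorem dense {p : ℕ} [hp : Fact p.Prime] {R : Set G} {C U X H : Subgroup G} (hU : PExt p R C U)
    (hUH : U ≤ H) (hR : ∀ c ∈ C, ∀ τ ∈ R, c * τ * c⁻¹ ∈ R) (hX : Det p R C X)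
    (hA : IsAdic (maximalIdeal A)) (hpA : (p : A) ∈ maximalIdeal A) {ρ : H →* GL (Fin n) A}
    (hρ : Continuous ρ)
    (hres : ∀ g : H, (g : G) ∈ C → ∃ N : ℕ,
      InI (maximalIdeal A) (((ρ g : Matrix (Fin n) (Fin n) A) - 1) ^ N))
    (hram : ∀ g : H, (g : G) ∈ R → ρ g = 1) (m : ℕ) (g : H) (hg : (g : G) ∈ U) :
    ∃ δ : H, (δ : G) ∈ X ∧ (δ : G) ∈ U ∧ δ⁻¹ * g ∈ cong ρ m := by
  have hHo : IsOpen (H : Set G) := Subgroup.isOpen_mono hUH hU.isOpen
  set V : Subgroup G := (cong ρ m).map H.subtype ⊓ U with hV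
  have hmemV : ∀ x (hx : x ∈ H), x ∈ V ↔ (⟨x, hx⟩ : H) ∈ cong ρ m ∧ x ∈ U := by
    intro x hx
    constructor
    · rintro ⟨⟨y, hy, hyx⟩, h⟩
      have : y = ⟨x, hx⟩ := Subtype.ext hyx
      rw [← this]
      exact ⟨hy, h⟩
    · rintro ⟨h1, h2⟩
      exact ⟨⟨_, h1, rfl⟩, h2⟩
  obtain ⟨V', hV', hV'p⟩ := refinePExt (p := p) hU hR (V := V) inf_le_right
    (IsOpen.inter (hHo.isOpenEmbedding_subtypeVal.isOpenMap _ (cong_open hA hρ m)) hU.isOpen)
    (fun u hu v hv => by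
      have hv' : v ∈ H := hUH hv.2
      rw [hmemV v hv'] at hv
      have hu' : u ∈ H := hUH hu
      rw [hmemV _ (H.mul_mem (H.mul_mem hu' hv') (H.inv_mem hu'))]
      refine ⟨?_, U.mul_mem (U.mul_mem hu hv.2) (U.inv_mem hu)⟩
      exact (cong_normal ρ m).conj_mem _ hv.1 ⟨u, hu'⟩)
    (fun u hu => by
      obtain ⟨k, hk⟩ := cong_pow hpA ρ (g := ⟨u, hUH hu⟩) (hres _ (hU.le hu)) m
      refine ⟨k, ?_⟩
      rw [hmemV _ (pow_mem (hUH hu) _)]
      exact ⟨hk, pow_mem hu _⟩)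
    (fun τ hτ hτR => by
      rw [hmemV _ (hUH hτ)]
      refine ⟨?_, hτ⟩
      show GeneralLinearGroup.map (n := Fin n) (Ideal.Quotient.mk (maximalIdeal A ^ m))
        (ρ ⟨τ, hUH hτ⟩) = 1
      rw [hram _ hτR, map_one])
  obtain ⟨δ, ⟨hδX, hδC⟩, hδ⟩ := surj hV'p hX (hU.le hg)
  have h1 := hV' hδ
  have hδU : δ ∈ U := by
    have e : δ = (g : G) * (δ⁻¹ * (g : G))⁻¹ := by group
    rw [e]
    exact U.mul_mem hg (U.inv_mem h1.2)
  have hδH : δ ∈ H := hUH hδU
  refine ⟨⟨δ, hδH⟩, hδX, hδU, ?_⟩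
  have h2 := (hmemV (δ⁻¹ * (g : G)) (H.mul_mem (H.inv_mem hδH) g.2)).1 h1
  exact h2.1

end top

section lg

variable {A : Type*} [CommRing A] [IsLocalRing A] {n : ℕ} {H : Type*} [Group H]

/-- **local-global principle** for closed subgroups -/
theorem locglob (ρ : H →* GL (Fin n) A) {S X N : Subgroup H} (hNf : N.FiniteIndex)
    (hS : ∀ x : H, (∀ m : ℕ, ∃ δ ∈ S, δ⁻¹ * x ∈ cong ρ m) → x ∈ S)
    (hden : ∀ (m : ℕ), ∀ g ∈ N, ∃ δ ∈ X, δ ∈ N ∧ δ⁻¹ * g ∈ cong ρ m)
    (hSX : S.relIndex X ≠ 0) : S.FiniteIndex := by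
  classical
  -- representatives of the cosets in `X`
  have hf : (S.subgroupOf X).FiniteIndex := ⟨hSX⟩
  have hfin : Finite (X ⧸ S.subgroupOf X) := Subgroup.finite_quotient_of_finiteIndex
  have key : ∀ g ∈ N, ∃ q : X ⧸ S.subgroupOf X, ((q.out : X) : H)⁻¹ * g ∈ S := by
    intro g hg
    choose δ hδX hδN hδ using fun m => hden m g hg
    obtain ⟨q, hq⟩ := Finite.exists_infinite_fiber
      (fun m : ℕ => (QuotientGroup.mk (⟨δ m, hδX m⟩ : X) : X ⧸ S.subgroupOf X))
    have hq' : (fun m : ℕ => (QuotientGroup.mk (⟨δ m, hδX m⟩ : X) : X ⧸ S.subgroupOf X)) ⁻¹' {q}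
      |>.Infinite := Set.infinite_coe_iff.1 hq
    refine ⟨q, hS _ fun m => ?_⟩
    obtain ⟨k, hk, hmk⟩ := hq'.exists_gt m
    have h1 : (QuotientGroup.mk (⟨δ k, hδX k⟩ : X) : X ⧸ S.subgroupOf X) = q := hk
    have h2 : (q.out)⁻¹ * (⟨δ k, hδX k⟩ : X) ∈ S.subgroupOf X := by
      apply QuotientGroup.eq.1
      rw [QuotientGroup.out_eq', h1]
    rw [Subgroup.mem_subgroupOf] at h2
    refine ⟨_, h2, ?_⟩
    have h3 := cong_anti ρ hmk.le (hδ k)
    have e : (((q.out : X)⁻¹ * (⟨δ k, hδX k⟩ : X) : X) : H)⁻¹ * (((q.out : X) : H)⁻¹ * g) =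
        (δ k)⁻¹ * g := by
      push_cast
      group
    rw [e]
    exact h3
  -- `S` has finite index in `N ⊔ ...`
  have h1 : S.relIndex N ≠ 0 := by
    have hfin2 : Finite (N ⧸ S.subgroupOf N) := by
      choose q hq using key
      refine Finite.of_injective (fun c : N ⧸ S.subgroupOf N => q (c.out : N) (c.out : N).2) ?_
      intro c c' hcc
      have h3 := hq (c.out : N) (c.out : N).2
      have h4 := hq (c'.out : N) (c'.out : N).2
      have hcc' : q (c.out : N) (c.out : N).2 = q (c'.out : N) (c'.out : N).2 := hcc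
      rw [← hcc'] at h4
      have h5 : (c.out)⁻¹ * c'.out ∈ S.subgroupOf N := by
        rw [Subgroup.mem_subgroupOf]
        have := S.mul_mem (S.inv_mem h3) h4
        push_cast
        convert this using 1
        group
      have h6 := QuotientGroup.eq.2 h5
      rwa [QuotientGroup.out_eq', QuotientGroup.out_eq'] at h6
    have : (S.subgroupOf N).FiniteIndex := Subgroup.finiteIndex_of_finite_quotient
    exact this.index_ne_zero
  have h2 : N.relIndex (⊤ : Subgroup H) ≠ 0 := by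
    rw [Subgroup.relIndex_top_right]
    exact hNf.index_ne_zero
  have h3 := Subgroup.relIndex_ne_zero_trans h1 h2
  rw [Subgroup.relIndex_top_right] at h3
  exact ⟨h3⟩

end lg

end Pool.Agent.U172.FM
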