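import Pool.Agent.U172.FM.Cyc

/-!
# Restriction of irreducible representations to normal subgroups
-/

set_option autoImplicit false
set_option linter.unusedSectionVars false

namespace Pool.Agent.U172.FM

section comp

variable {E : Type*} [Field E] {V : Type*} [AddCommGroup V] [Module E V] [FiniteDimensional E V]
variable {L : Type*} [Group L] (b : L →* Module.End E V)

lemma b_inv (g : L) (v : V) : b g⁻¹ (b g v) = v := by
  rw [← Module.End.mul_apply, ← map_mul, inv_mul_cancel, map_one]; rfl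

lemma b_inv' (g : L) (v : V) : b g (b g⁻¹ v) = v := by
  rw [← Module.End.mul_apply, ← map_mul, mul_inv_cancel, map_one]; rfl

lemma b_mul (g h : L) (v : V) : b (g * h) v = b g (b h v) := by
  rw [map_mul]; rfl

lemma b_inj (g : L) : Function.Injective (b g) := fun v w h => by
  rw [← b_inv b g v, h, b_inv]

/-- stable subspaces -/
def Sta (T : Subgroup L) (U : Submodule E V) : Prop := ∀ t ∈ T, ∀ u ∈ U, b t u ∈ U

variable {b}

lemma Sta.map {T : Subgroup L} [hT : T.Normal] {U : Submodule E V} (h : Sta b T U) (g : L) :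
    Sta b T (U.map (b g)) := by
  rintro t ht _ ⟨u, hu, rfl⟩
  refine ⟨b (g⁻¹ * t * g) u, h _ (by simpa using hT.conj_mem t ht g⁻¹) u hu, ?_⟩
  rw [← b_mul, ← b_mul]
  congr 2
  group

lemma Sta.sup {T : Subgroup L} {U W : Submodule E V} (h : Sta b T U) (h' : Sta b T W) :
    Sta b T (U ⊔ W) := by
  intro t ht u hu
  obtain ⟨y, hy, z, hz, rfl⟩ := Submodule.mem_sup.1 hu
  rw [map_add]
  exact Submodule.add_mem_sup (h t ht y hy) (h' t ht z hz)

lemma Sta.inf {T : Subgroup L} {U W : Submodule E V} (h : Sta b T U) (h' : Sta b T W) :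
    Sta b T (U ⊓ W) := fun t ht u hu => ⟨h t ht u hu.1, h' t ht u hu.2⟩

/-- **Clifford**: complements of stable subspaces -/
lemma compl (hirr : ∀ U : Submodule E V, (∀ g, ∀ u ∈ U, b g u ∈ U) → U = ⊥ ∨ U = ⊤)
    (T : Subgroup L) [hT : T.Normal] {U : Submodule E V} (hU : Sta b T U) :
    ∃ Z : Submodule E V, Sta b T Z ∧ IsCompl U Z := by
  -- the maximal disjoint stable subspace
  obtain ⟨Z, ⟨hZ, hUZ⟩, hmax⟩ := WellFounded.has_min (wellFounded_gt (α := Submodule E V))
    {Z | Sta b T Z ∧ Disjoint U Z} ⟨⊥, fun t _ u hu => by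
      rw [Submodule.mem_bot] at hu ⊢; rw [hu, map_zero], disjoint_bot_right⟩
  refine ⟨Z, hZ, hUZ, codisjoint_iff.2 ?_⟩
  by_contra htop
  have hne : (⊤ : Submodule E V) ≠ ⊥ := by
    intro h
    apply htop
    rw [eq_top_iff, h]
    exact bot_le
  -- a minimal stable subspace
  obtain ⟨S, ⟨hS, hS0⟩, hmin⟩ := WellFounded.has_min (wellFounded_lt (α := Submodule E V))
    {S | Sta b T S ∧ S ≠ ⊥} ⟨⊤, fun _ _ _ _ => trivial, hne⟩
  have hall : (⨆ g : L, S.map (b g)) = ⊤ := by
    rcases hirr (⨆ g : L, S.map (b g)) (fun g u hu => by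
      have h1 : (⨆ g : L, S.map (b g)) ≤ (⨆ g : L, S.map (b g)).comap (b g) := by
        refine iSup_le fun h => ?_
        rintro _ ⟨s, hs, rfl⟩
        show b g (b h s) ∈ (⨆ g : L, S.map (b g))
        rw [← b_mul]
        exact Submodule.mem_iSup_of_mem (g * h) ⟨s, hs, rfl⟩
      exact h1 hu) with h | h
    · exfalso
      apply hS0
      rw [eq_bot_iff, ← h]
      intro s hs
      exact Submodule.mem_iSup_of_mem 1 ⟨s, hs, by rw [map_one]; rfl⟩
    · exact h
  obtain ⟨g, hg⟩ : ∃ g : L, ¬ S.map (b g) ≤ U ⊔ Z := by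
    by_contra hcon
    push Not at hcon
    apply htop
    rw [eq_top_iff, ← hall]
    exact iSup_le hcon
  have hdis : Disjoint (U ⊔ Z) (S.map (b g)) := by
    rw [disjoint_iff]
    by_contra h0
    -- pull back to `S`
    set S' : Submodule E V := ((U ⊔ Z) ⊓ S.map (b g)).map (b g⁻¹) with hS'
    have h1 : Sta b T S' := ((hU.sup hZ).inf (hS.map g)).map g⁻¹
    have h2 : S' ≤ S := by
      rintro _ ⟨_, ⟨-, ⟨s, hs, rfl⟩⟩, rfl⟩
      rw [b_inv]
      exact hs
    have h3 : S' ≠ ⊥ := by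
      intro h4
      apply h0
      rw [eq_bot_iff]
      intro y hy
      have h5 : b g⁻¹ y ∈ S' := ⟨y, hy, rfl⟩
      rw [h4, Submodule.mem_bot] at h5
      rw [Submodule.mem_bot, ← b_inv' b g y, h5, map_zero]
    have h4 : S' = S := by
      by_contra h5
      exact hmin S' ⟨h1, h3⟩ (lt_of_le_of_ne h2 h5)
    apply hg
    rintro _ ⟨s, hs, rfl⟩
    rw [← h4] at hs
    obtain ⟨y, hy, rfl⟩ := hs
    rw [b_inv']
    exact hy.1
  have hlt : Z < Z ⊔ S.map (b g) := by
    refine lt_of_le_of_ne le_sup_left fun h => hg ?_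
    rw [h]
    exact (le_sup_right : S.map (b g) ≤ Z ⊔ S.map (b g)).trans le_sup_right
  exact hmax (Z ⊔ S.map (b g)) ⟨hZ.sup (hS.map g),
    hUZ.disjoint_sup_right_of_disjoint_sup_left hdis⟩ hlt

/-- the projection to a stable subspace -/
lemma exists_proj (hirr : ∀ U : Submodule E V, (∀ g, ∀ u ∈ U, b g u ∈ U) → U = ⊥ ∨ U = ⊤)
    (T : Subgroup L) [hT : T.Normal] {U : Submodule E V} (hU : Sta b T U) (hU0 : U ≠ ⊥)
    (hU1 : U ≠ ⊤) : ∃ a : Module.End E V, (∀ t ∈ T, ∀ v, a (b t v) = b t (a v)) ∧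
      ¬ ∃ c : E, ∀ v, a v = c • v := by
  obtain ⟨Z, hZ, hUZ⟩ := compl hirr T hU
  refine ⟨U.subtype ∘ₗ U.projectionOnto Z hUZ, fun t ht v => ?_, ?_⟩
  · obtain ⟨u, hu, z, hz, rfl⟩ : ∃ u ∈ U, ∃ z ∈ Z, u + z = v := by
      have : v ∈ U ⊔ Z := by rw [hUZ.sup_eq_top]; trivial
      exact Submodule.mem_sup.1 this
    have h1 : ∀ y : V, ∀ hy : y ∈ U, U.projectionOnto Z hUZ y = ⟨y, hy⟩ := fun y hy =>
      Submodule.projectionOnto_apply_left hUZ ⟨y, hy⟩
    have h2 : ∀ y ∈ Z, U.projectionOnto Z hUZ y = 0 := fun y hy =>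
      (Submodule.projectionOnto_apply_eq_zero_iff hUZ).2 hy
    have e1 : ∀ y : V, (U.subtype ∘ₗ U.projectionOnto Z hUZ) y = ((U.projectionOnto Z hUZ y : U) : V) :=
      fun y => rfl
    rw [e1, e1, map_add, map_add, map_add, h1 u hu, h2 z hz, h1 _ (hU t ht u hu),
      h2 _ (hZ t ht z hz), add_zero, add_zero]
  · rintro ⟨c, hc⟩
    obtain ⟨u, hu, hu0⟩ := (Submodule.ne_bot_iff U).1 hU0
    have h1 := hc u
    have h2 : (U.subtype ∘ₗ U.projectionOnto Z hUZ) u = u := by
      rw [LinearMap.comp_apply]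
      have := Submodule.projectionOnto_apply_left hUZ ⟨u, hu⟩
      rw [this]
      rfl
    rw [h2] at h1
    have hc1 : c = 1 := by
      have h3 : (c - 1) • u = 0 := by rw [sub_smul, ← h1, one_smul, sub_self]
      rcases smul_eq_zero.1 h3 with h | h
      · exact sub_eq_zero.1 h
      · exact absurd h hu0
    apply hU1
    rw [eq_top_iff]
    intro v _
    have h3 := hc v
    rw [hc1, one_smul] at h3
    rw [← h3]
    exact (U.projectionOnto Z hUZ v).2

end comp

section cyc

variable {E : Type*} [Field E] [IsAlgClosed E] [CharZero E] {V : Type*} [AddCommGroup V]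
  [Module E V] [FiniteDimensional E V] [Nontrivial V]
variable {L : Type*} [Group L] {b : L →* Module.End E V}

/-- Schur's lemma -/
lemma schur {T : Subgroup L} {x : L}
    (hirr : ∀ U : Submodule E V, Sta b T U → (∀ u ∈ U, b x u ∈ U) → U = ⊥ ∨ U = ⊤)
    (a : Module.End E V) (ha : ∀ t ∈ T, ∀ v, a (b t v) = b t (a v)) (hax : ∀ v, a (b x v) = b x (a v)) :
    ∃ c : E, a = c • 1 := by
  obtain ⟨c, hc⟩ := Module.End.exists_eigenvalue a
  refine ⟨c, ?_⟩
  have hmem : ∀ v, v ∈ Module.End.eigenspace a c ↔ a v = c • v := fun v =>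
    Module.End.mem_eigenspace_iff
  rcases hirr (Module.End.eigenspace a c) (fun t ht v hv => by
      rw [hmem] at hv ⊢
      rw [ha t ht, hv, map_smul]) (fun v hv => by
      rw [hmem] at hv ⊢
      rw [hax, hv, map_smul]) with h | h
  · exact absurd h hc
  · refine LinearMap.ext fun v => ?_
    have h1 : v ∈ Module.End.eigenspace a c := by rw [h]; trivial
    rw [hmem] at h1
    rw [h1]
    rfl

/-- eigenvectors of the conjugation are invertible -/
lemma isUnit_of {T : Subgroup L} {x : L}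
    (hirr : ∀ U : Submodule E V, Sta b T U → (∀ u ∈ U, b x u ∈ U) → U = ⊥ ∨ U = ⊤)
    (a : Module.End E V) (ha : ∀ t ∈ T, ∀ v, a (b t v) = b t (a v)) {z : E}
    (hax : ∀ v, b x (a v) = z • a (b x v)) (hz : z ≠ 0) (ha0 : a ≠ 0) : IsUnit a := by
  rw [LinearMap.isUnit_iff_ker_eq_bot]
  rcases hirr (LinearMap.ker a) (fun t ht v hv => by
      rw [LinearMap.mem_ker] at hv ⊢
      rw [ha t ht, hv, map_zero]) (fun v hv => by
      rw [LinearMap.mem_ker] at hv ⊢
      have h1 := hax v
      rw [hv, map_zero] at h1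
      rcases smul_eq_zero.1 h1.symm with h | h
      · exact absurd h hz
      · exact h) with h | h
  · exact h
  · exact absurd (LinearMap.ker_eq_top.1 h) ha0

/-- two eigenvectors commute -/
lemma comm_eig {T : Subgroup L} {x : L}
    (hirr : ∀ U : Submodule E V, Sta b T U → (∀ u ∈ U, b x u ∈ U) → U = ⊥ ∨ U = ⊤)
    {k : ℕ} [NeZero k] (u v : (Module.End E V)ˣ) (ζ ξ : rootsOfUnity k E)
    (hu : ∀ t ∈ T, (u : Module.End E V) * b t = b t * u)
    (hv : ∀ t ∈ T, (v : Module.End E V) * b t = b t * v)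
    (hux : b x * u = ((ζ : Eˣ) : E) • ((u : Module.End E V) * b x))
    (hvx : b x * v = ((ξ : Eˣ) : E) • ((v : Module.End E V) * b x)) :
    (u : Module.End E V) * v = v * u := by
  let Γ : Subgroup ((Module.End E V)ˣ × rootsOfUnity k E) :=
    { carrier := {y | (∀ t ∈ T, (y.1 : Module.End E V) * b t = b t * y.1) ∧
        b x * y.1 = ((y.2 : Eˣ) : E) • ((y.1 : Module.End E V) * b x)}
      one_mem' := ⟨fun t _ => by simp, by simp⟩
      mul_mem' := by
        rintro ⟨y, η⟩ ⟨y', η'⟩ ⟨h1, h2⟩ ⟨h1', h2'⟩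
        refine ⟨fun t ht => ?_, ?_⟩
        · show ((y * y' : (Module.End E V)ˣ) : Module.End E V) * b t = _
          rw [Units.val_mul, mul_assoc, h1' t ht, ← mul_assoc, h1 t ht, mul_assoc]
          rfl
        · show b x * ((y * y' : (Module.End E V)ˣ) : Module.End E V) =
            (((η * η' : rootsOfUnity k E) : Eˣ) : E) • (((y * y' : (Module.End E V)ˣ) : Module.End E V) * b x)
          have h3 : b x * (y : Module.End E V) = ((η : Eˣ) : E) • ((y : Module.End E V) * b x) := h2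
          have h4 : b x * (y' : Module.End E V) = ((η' : Eˣ) : E) • ((y' : Module.End E V) * b x) := h2'
          rw [Units.val_mul, ← mul_assoc, h3, smul_mul_assoc, mul_assoc, h4, mul_smul_comm, smul_smul,
            ← mul_assoc]
          rfl
      inv_mem' := by
        rintro ⟨y, η⟩ ⟨h1, h2⟩
        refine ⟨fun t ht => ?_, ?_⟩
        · show ((y⁻¹ : (Module.End E V)ˣ) : Module.End E V) * b t = b t * ((y⁻¹ : (Module.End E V)ˣ) : Module.End E V)
          have h3 : (y : Module.End E V) * b t = b t * y := h1 t ht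
          rw [Units.inv_mul_eq_iff_eq_mul, ← mul_assoc, h3, mul_assoc, Units.mul_inv, mul_one]
        · show b x * ((y⁻¹ : (Module.End E V)ˣ) : Module.End E V) =
            (((η⁻¹ : rootsOfUnity k E) : Eˣ) : E) • (((y⁻¹ : (Module.End E V)ˣ) : Module.End E V) * b x)
          have h3 : b x * (y : Module.End E V) = ((η : Eˣ) : E) • ((y : Module.End E V) * b x) := h2
          have h4 : (((η⁻¹ : rootsOfUnity k E) : Eˣ) : E) = (((η : Eˣ) : E))⁻¹ := by simp
          have hη : ((η : Eˣ) : E) ≠ 0 := Units.ne_zero _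
          have h5 : (y : Module.End E V) * (b x * ((y⁻¹ : (Module.End E V)ˣ) : Module.End E V)) =
              (((η : Eˣ) : E))⁻¹ • b x := by
            have h6 : (y : Module.End E V) * b x = (((η : Eˣ) : E))⁻¹ • (b x * (y : Module.End E V)) := by
              rw [h3, smul_smul, inv_mul_cancel₀ hη, one_smul]
            rw [← mul_assoc, h6, smul_mul_assoc, mul_assoc, Units.mul_inv, mul_one]
          rw [h4]
          have h6 := (Units.inv_mul_eq_iff_eq_mul y).2 h5.symm
          rw [← h6, mul_smul_comm] }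
  let lam : Γ →* rootsOfUnity k E := (MonoidHom.snd _ _).comp Γ.subtype
  have hker : lam.ker ≤ Subgroup.center Γ := by
    rintro ⟨⟨y, η⟩, h1, h2⟩ h3
    have hη : η = 1 := h3
    have h2' : b x * (y : Module.End E V) = ((η : Eˣ) : E) • ((y : Module.End E V) * b x) := h2
    rw [hη] at h2'
    obtain ⟨c, hc⟩ := schur hirr (y : Module.End E V)
      (fun t ht v => LinearMap.congr_fun (h1 t ht) v) (fun v => by
        have := LinearMap.congr_fun h2' v
        simpa using this.symm)
    rw [Subgroup.mem_center_iff]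
    rintro ⟨⟨y', η'⟩, h1', h2'⟩
    apply Subtype.ext
    refine Prod.ext (Units.ext ?_) (mul_comm _ _)
    show (y' : Module.End E V) * y = y * y'
    rw [hc]
    simp
  have h := (MonoidHom.isMulCommutative_of_isCyclic_of_ker_le_center lam hker).is_comm.comm
    (⟨(u, ζ), hu, hux⟩ : Γ) (⟨(v, ξ), hv, hvx⟩ : Γ)
  have h1 := congrArg (fun y : Γ => ((y : (Module.End E V)ˣ × rootsOfUnity k E).1 : Module.End E V)) h
  exact h1

end cyc

end Pool.Agent.U172.FM
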