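import Pool.Agent.U172.FM.Cliff

/-!
# The commutant of a normal subgroup with cyclic quotient
-/

set_option autoImplicit false
set_option linter.unusedSectionVars false

namespace Pool.Agent.U172.FM

section cyc

variable {E : Type*} [Field E] [IsAlgClosed E] [CharZero E] {V : Type*} [AddCommGroup V]
  [Module E V] [FiniteDimensional E V] [Nontrivial V]
variable {L : Type*} [Group L] {b : L →* Module.End E V}

/-- conjugation by `b x` -/
def conjx (b : L →* Module.End E V) (x : L) (a : Module.End E V) : Module.End E V :=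
  b x * a * b x⁻¹

lemma conjx_iter (x : L) (a : Module.End E V) (i : ℕ) :
    (conjx b x)^[i] a = b (x ^ i) * a * b (x ^ i)⁻¹ := by
  induction i with
  | zero => simp
  | succ i ih =>
    rw [Function.iterate_succ', Function.comp_apply, ih]
    show b x * (b (x ^ i) * a * b (x ^ i)⁻¹) * b x⁻¹ = _
    rw [pow_succ', mul_inv_rev, map_mul b x, map_mul b _ x⁻¹]
    simp only [mul_assoc]

/-- the commutant of `T` -/
def Com (b : L →* Module.End E V) (T : Subgroup L) (a : Module.End E V) : Prop :=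
  ∀ t ∈ T, a * b t = b t * a

lemma Com.conj {T : Subgroup L} [hT : T.Normal] {a : Module.End E V} (h : Com b T a) (g : L) :
    Com b T (b g * a * b g⁻¹) := by
  intro t ht
  have h1 := h (g⁻¹ * t * g) (by simpa using hT.conj_mem t ht g⁻¹)
  calc b g * a * b g⁻¹ * b t = b g * a * (b g⁻¹ * b t) := by rw [mul_assoc]
    _ = b g * a * b (g⁻¹ * t * g * g⁻¹) := by rw [← map_mul]; congr 2; group
    _ = b g * (a * b (g⁻¹ * t * g)) * b g⁻¹ := by rw [map_mul b _ g⁻¹]; simp only [mul_assoc]
    _ = b g * (b (g⁻¹ * t * g) * a) * b g⁻¹ := by rw [h1]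
    _ = b (g * (g⁻¹ * t * g)) * a * b g⁻¹ := by rw [map_mul b g]; simp only [mul_assoc]
    _ = b (t * g) * a * b g⁻¹ := by congr 3; group
    _ = b t * (b g * a * b g⁻¹) := by rw [map_mul]; simp only [mul_assoc]

lemma Com.smul {T : Subgroup L} {a : Module.End E V} (h : Com b T a) (c : E) : Com b T (c • a) := by
  intro t ht
  rw [smul_mul_assoc, h t ht, mul_smul_comm]

lemma Com.sum {T : Subgroup L} {ι : Type*} (s : Finset ι) (f : ι → Module.End E V)
    (h : ∀ i ∈ s, Com b T (f i)) : Com b T (∑ i ∈ s, f i) := by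
  intro t ht
  rw [Finset.sum_mul, Finset.mul_sum]
  exact Finset.sum_congr rfl fun i hi => h i hi t ht

lemma Com.conjIter {T : Subgroup L} [hT : T.Normal] {a : Module.End E V} (h : Com b T a) (x : L)
    (i : ℕ) : Com b T ((conjx b x)^[i] a) := by
  rw [conjx_iter]
  exact h.conj _

lemma conjx_pow {T : Subgroup L} {a : Module.End E V} (h : Com b T a) {x : L} {k : ℕ}
    (hx : x ^ k ∈ T) : (conjx b x)^[k] a = a := by
  rw [conjx_iter, ← h _ hx, mul_assoc, ← map_mul, mul_inv_cancel, map_one, mul_one]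

/-- the eigen component -/
noncomputable def comp (b : L →* Module.End E V) (x : L) (k : ℕ) (z : E) (a : Module.End E V) :
    Module.End E V := ∑ i ∈ Finset.range k, (z⁻¹) ^ i • (conjx b x)^[i] a

lemma conjx_add (x : L) (a a' : Module.End E V) : conjx b x (a + a') = conjx b x a + conjx b x a' := by
  unfold conjx
  rw [mul_add, add_mul]

lemma conjx_sum {ι : Type*} (x : L) (s : Finset ι) (f : ι → Module.End E V) :
    conjx b x (∑ i ∈ s, f i) = ∑ i ∈ s, conjx b x (f i) := by
  unfold conjx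
  rw [Finset.mul_sum, Finset.sum_mul]

lemma conjx_smul (x : L) (c : E) (a : Module.End E V) : conjx b x (c • a) = c • conjx b x a := by
  unfold conjx
  rw [mul_smul_comm, smul_mul_assoc]

lemma comp_eig {T : Subgroup L} {a : Module.End E V} (h : Com b T a) {x : L} {k : ℕ}
    (hx : x ^ k ∈ T) {z : E} (hz : z ^ k = 1) (hk : k ≠ 0) :
    conjx b x (comp b x k z a) = z • comp b x k z a := by
  have hz0 : z ≠ 0 := by
    rintro rfl
    rw [zero_pow hk] at hz
    exact zero_ne_one hz
  unfold comp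
  rw [conjx_sum, Finset.smul_sum]
  have h1 : ∀ i, conjx b x ((z⁻¹) ^ i • (conjx b x)^[i] a) =
      z • ((z⁻¹) ^ (i + 1) • (conjx b x)^[i + 1] a) := by
    intro i
    rw [conjx_smul, Function.iterate_succ', Function.comp_apply, smul_smul, pow_succ',
      mul_inv_cancel_left₀ hz0]
  rw [Finset.sum_congr rfl fun i _ => h1 i]
  rw [← Finset.smul_sum, ← Finset.smul_sum]
  congr 1
  obtain ⟨m, rfl⟩ : ∃ m, k = m + 1 := ⟨k - 1, by omega⟩
  rw [Finset.sum_range_succ, Finset.sum_range_succ' (fun i => (z⁻¹) ^ i • (conjx b x)^[i] a) m]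
  congr 1
  rw [conjx_pow h hx, inv_pow, hz]
  simp

lemma comp_sum {a : Module.End E V} {x : L} {k : ℕ} {w : E} (hw : IsPrimitiveRoot w k) :
    ∑ j ∈ Finset.range k, comp b x k (w ^ j) a = (k : E) • a := by
  rcases Nat.eq_zero_or_pos k with hk | hk
  · subst hk
    simp
  unfold comp
  rw [Finset.sum_comm]
  have h1 : ∀ i ∈ Finset.range k, ∑ j ∈ Finset.range k, ((w ^ j)⁻¹) ^ i • (conjx b x)^[i] a =
      if i = 0 then (k : E) • a else 0 := by
    intro i hi
    rw [← Finset.sum_smul]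
    split_ifs with h
    · subst h
      simp
    · have h2 : ∀ j, ((w ^ j)⁻¹) ^ i = ((w⁻¹) ^ i) ^ j := by
        intro j
        rw [← inv_pow, ← pow_mul, ← pow_mul, mul_comm]
      rw [Finset.sum_congr rfl fun j _ => h2 j]
      have h3 : (w⁻¹) ^ i ≠ 1 := by
        intro h4
        rw [inv_pow, inv_eq_one] at h4
        exact hw.pow_ne_one_of_pos_of_lt h (Finset.mem_range.1 hi) h4
      rw [geom_sum_eq h3]
      have h4 : ((w⁻¹) ^ i) ^ k = 1 := by
        rw [← pow_mul, mul_comm, pow_mul, inv_pow, hw.pow_eq_one, inv_one, one_pow]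
      rw [h4, sub_self, zero_div, zero_smul]
  rw [Finset.sum_congr rfl h1, Finset.sum_ite_eq' (Finset.range k) 0]
  rw [if_pos (Finset.mem_range.2 hk)]

/-- **the commutant is commutative** -/
lemma com_comm {T : Subgroup L} [hT : T.Normal] {x : L}
    (hirr : ∀ U : Submodule E V, Sta b T U → (∀ u ∈ U, b x u ∈ U) → U = ⊥ ∨ U = ⊤)
    {k : ℕ} (hk : k ≠ 0) (hx : x ^ k ∈ T) {a a' : Module.End E V} (ha : Com b T a)
    (ha' : Com b T a') : a * a' = a' * a := by
  have : NeZero k := ⟨hk⟩
  have hk0 : (k : E) ≠ 0 := Nat.cast_ne_zero.2 hk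
  have : NeZero (k : E) := ⟨hk0⟩
  obtain ⟨w, hw⟩ := HasEnoughRootsOfUnity.exists_primitiveRoot E k
  have key : ∀ (c c' : Module.End E V), Com b T c → Com b T c' → ∀ i j : ℕ,
      comp b x k (w ^ i) c * comp b x k (w ^ j) c' = comp b x k (w ^ j) c' * comp b x k (w ^ i) c := by
    intro c c' hc hc' i j
    have hroot : ∀ i : ℕ, (w ^ i) ^ k = 1 := fun i => by
      rw [← pow_mul, mul_comm, pow_mul, hw.pow_eq_one, one_pow]
    have hcc : ∀ (c : Module.End E V) (z : E), Com b T c → Com b T (comp b x k z c) := fun c z hc =>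
      Com.sum _ _ fun i _ => (hc.conjIter x i).smul _
    by_cases h1 : comp b x k (w ^ i) c = 0
    · rw [h1, zero_mul, mul_zero]
    by_cases h2 : comp b x k (w ^ j) c' = 0
    · rw [h2, zero_mul, mul_zero]
    have e1 : ∀ (c : Module.End E V) (z : E), conjx b x c = z • c → b x * c = z • (c * b x) := by
      intro c z h
      have h3 : b x * c * b x⁻¹ = z • c := h
      have h4 : b x * c = (b x * c * b x⁻¹) * b x := by
        rw [mul_assoc, ← map_mul, inv_mul_cancel, map_one, mul_one]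
      rw [h4, h3, smul_mul_assoc]
    have hne : ∀ i : ℕ, w ^ i ≠ 0 := fun i => pow_ne_zero _ (hw.ne_zero hk)
    have e2 : ∀ (c : Module.End E V) (i : ℕ), Com b T c → comp b x k (w ^ i) c ≠ 0 →
        IsUnit (comp b x k (w ^ i) c) := by
      intro c i hc h
      refine isUnit_of hirr _ (fun t ht v => LinearMap.congr_fun (hcc c _ hc t ht) v) (z := w ^ i)
        (fun v => ?_) (hne i) h
      exact LinearMap.congr_fun (e1 _ _ (comp_eig hc hx (hroot i) hk)) v
    obtain ⟨u, hu⟩ := e2 c i hc h1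
    obtain ⟨v, hv⟩ := e2 c' j hc' h2
    have e3 : ∀ i : ℕ, ∃ ζ : rootsOfUnity k E, ((ζ : Eˣ) : E) = w ^ i := fun i =>
      ⟨⟨Units.mk0 (w ^ i) (hne i), by
        rw [mem_rootsOfUnity]
        apply Units.ext
        simpa using hroot i⟩, rfl⟩
    obtain ⟨ζ, hζ⟩ := e3 i
    obtain ⟨ξ, hξ⟩ := e3 j
    have h3 := comm_eig hirr u v ζ ξ (fun t ht => by rw [hu]; exact hcc c _ hc t ht)
      (fun t ht => by rw [hv]; exact hcc c' _ hc' t ht)
      (by rw [hu, hζ]; exact e1 _ _ (comp_eig hc hx (hroot i) hk))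
      (by rw [hv, hξ]; exact e1 _ _ (comp_eig hc' hx (hroot j) hk))
    rw [← hu, ← hv, h3]
  have h1 : ((k : E) • a) * ((k : E) • a') = ((k : E) • a') * ((k : E) • a) := by
    rw [← comp_sum (b := b) (x := x) (a := a) hw, ← comp_sum (b := b) (x := x) (a := a') hw,
      Finset.sum_mul_sum, Finset.sum_mul_sum, Finset.sum_comm]
    exact Finset.sum_congr rfl fun i _ => Finset.sum_congr rfl fun j _ => key a a' ha ha' j i
  rw [smul_mul_smul_comm, smul_mul_smul_comm] at h1
  have h2 : (k : E) * k ≠ 0 := mul_ne_zero hk0 hk0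
  exact smul_right_injective _ h2 h1

end cyc

end Pool.Agent.U172.FM
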