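import Pool.Agent.U172.FM.Cliff2

/-!
# The weight spaces of the commutant, and induced representations
-/

set_option autoImplicit false
set_option linter.unusedSectionVars false

namespace Pool.Agent.U172.FM

section wt

variable {E : Type*} [Field E] {V : Type*} [AddCommGroup V] [Module E V] [FiniteDimensional E V]

/-- independence of the eigenvectors -/
lemma indep {T : Type*} {ι : Type*} [DecidableEq ι] (f : T → Module.End E V) (χ : ι → T → E)
    (s : Finset ι) (hχ : ∀ p ∈ s, ∀ q ∈ s, χ p = χ q → p = q) :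
    ∀ u : ι → V, (∀ q ∈ s, ∀ t, f t (u q) = χ q t • u q) → ∑ q ∈ s, u q = 0 → ∀ q ∈ s, u q = 0 := by
  induction s using Finset.induction_on with
  | empty => intro u _ _ q hq; simp at hq
  | insert q₀ s hq₀ ih =>
    intro u hu hsum
    have ih' := ih fun p hp q hq => hχ p (Finset.mem_insert_of_mem hp) q (Finset.mem_insert_of_mem hq)
    rw [Finset.sum_insert hq₀] at hsum
    have h1 : ∀ q ∈ s, u q = 0 := by
      intro q hq
      by_contra hne
      apply (ne_of_mem_of_not_mem hq hq₀)
      apply hχ q (Finset.mem_insert_of_mem hq) q₀ (Finset.mem_insert_self _ _)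
      funext t
      have h2 : ∑ q ∈ s, (χ q t - χ q₀ t) • u q = 0 := by
        have h3 := congrArg (f t) hsum
        rw [map_add, map_zero, map_sum, hu q₀ (Finset.mem_insert_self _ _) t] at h3
        have h4 : ∑ q ∈ s, f t (u q) = ∑ q ∈ s, χ q t • u q :=
          Finset.sum_congr rfl fun q hq => hu q (Finset.mem_insert_of_mem hq) t
        rw [h4] at h3
        have h5 : χ q₀ t • u q₀ = - ∑ q ∈ s, χ q₀ t • u q := by
          rw [← Finset.smul_sum, ← smul_neg, eq_neg_of_add_eq_zero_left hsum]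
        rw [h5] at h3
        simp only [sub_smul, Finset.sum_sub_distrib]
        rw [← h3]
        abel
      have h6 := ih' (fun q => (χ q t - χ q₀ t) • u q) (fun q hq t' => by
        rw [map_smul, hu q (Finset.mem_insert_of_mem hq) t', smul_comm]) h2 q hq
      rcases smul_eq_zero.1 h6 with h | h
      · exact sub_eq_zero.1 h
      · exact absurd h hne
    intro q hq
    rcases Finset.mem_insert.1 hq with rfl | hq
    · rw [Finset.sum_eq_zero h1, add_zero] at hsum
      exact hsum
    · exact h1 q hq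

end wt

section span

variable {E : Type*} [Field E] {V : Type*} [AddCommGroup V] [Module E V] [FiniteDimensional E V]
variable {L : Type*} [Group L] {b : L →* Module.End E V}

/-- the sum of the conjugates of a subspace -/
noncomputable def Phi (b : L →* Module.End E V) (L' : Subgroup L) [Fintype (L ⧸ L')] (U : Submodule E V) :
    ((L ⧸ L') → U) →ₗ[E] V where
  toFun u := ∑ q, b (q.out : L) (u q : V)
  map_add' u v := by simp [Finset.sum_add_distrib]
  map_smul' r u := by simp [Finset.smul_sum]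

lemma Phi_apply (L' : Subgroup L) [Fintype (L ⧸ L')] (U : Submodule E V) (u : (L ⧸ L') → U) :
    Phi b L' U u = ∑ q, b (q.out : L) (u q : V) := rfl

lemma out_mem {L' : Subgroup L} (g : L) : ((QuotientGroup.mk g : L ⧸ L').out)⁻¹ * g ∈ L' := by
  apply QuotientGroup.eq.1
  rw [QuotientGroup.out_eq']

lemma mem_range_Phi (L' : Subgroup L) [Fintype (L ⧸ L')] {U : Submodule E V} (hU : Sta b L' U)
    (g : L) {w : V} (hw : w ∈ U) : b g w ∈ LinearMap.range (Phi b L' U) := by
  classical
  refine ⟨fun q => if q = QuotientGroup.mk g then ⟨b (((QuotientGroup.mk g : L ⧸ L').out)⁻¹ * g) w,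
    hU _ (out_mem g) w hw⟩ else 0, ?_⟩
  rw [Phi_apply, Finset.sum_eq_single (QuotientGroup.mk g : L ⧸ L')]
  · rw [if_pos rfl]
    show b _ (b _ w) = _
    rw [← b_mul, mul_inv_cancel_left]
  · intro q _ hq
    rw [if_neg hq]
    simp
  · intro h
    exact absurd (Finset.mem_univ _) h

lemma range_Phi_stable (L' : Subgroup L) [Fintype (L ⧸ L')] {U : Submodule E V} (hU : Sta b L' U)
    (g : L) {v : V} (hv : v ∈ LinearMap.range (Phi b L' U)) : b g v ∈ LinearMap.range (Phi b L' U) := by
  obtain ⟨u, rfl⟩ := hv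
  rw [Phi_apply, map_sum]
  refine Submodule.sum_mem _ fun q _ => ?_
  rw [← b_mul]
  exact mem_range_Phi L' hU _ (u q).2

lemma range_Phi (hirr : ∀ U : Submodule E V, (∀ g, ∀ u ∈ U, b g u ∈ U) → U = ⊥ ∨ U = ⊤)
    (L' : Subgroup L) [Fintype (L ⧸ L')] {U : Submodule E V} (hU : Sta b L' U) (hU0 : U ≠ ⊥) :
    LinearMap.range (Phi b L' U) = ⊤ := by
  rcases hirr (LinearMap.range (Phi b L' U)) (fun g v hv => range_Phi_stable L' hU g hv) with h | h
  · exfalso
    apply hU0
    rw [eq_bot_iff, ← h]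
    intro w hw
    have := mem_range_Phi (b := b) L' hU 1 hw
    rwa [map_one] at this
  · exact h

lemma finrank_le (hirr : ∀ U : Submodule E V, (∀ g, ∀ u ∈ U, b g u ∈ U) → U = ⊥ ∨ U = ⊤)
    (L' : Subgroup L) [hf : L'.FiniteIndex] {U : Submodule E V} (hU : Sta b L' U) (hU0 : U ≠ ⊥) :
    Module.finrank E V ≤ L'.index * Module.finrank E U := by
  have hfin : Finite (L ⧸ L') := Subgroup.finite_quotient_of_finiteIndex
  let _ : Fintype (L ⧸ L') := Fintype.ofFinite _
  have h1 := LinearMap.finrank_range_le (Phi b L' U)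
  rw [range_Phi hirr L' hU hU0, finrank_top, Module.finrank_pi_fintype, Finset.sum_const,
    Finset.card_univ, smul_eq_mul] at h1
  rwa [Subgroup.index_eq_card, Nat.card_eq_fintype_card]

end span

section main

variable {E : Type*} [Field E] [IsAlgClosed E] [CharZero E] {V : Type*} [AddCommGroup V]
  [Module E V] [FiniteDimensional E V] [Nontrivial V]
variable {L : Type*} [Group L] {b : L →* Module.End E V}

/-- the induction step, given the commutative commutant -/
lemma weights (hirr : ∀ U : Submodule E V, (∀ g, ∀ u ∈ U, b g u ∈ U) → U = ⊥ ∨ U = ⊤)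
    (T : Subgroup L) [hT : T.Normal] [hTf : T.FiniteIndex]
    (hcomm : ∀ a a' : Module.End E V, Com b T a → Com b T a' → a * a' = a' * a)
    (hns : ∃ a : Module.End E V, Com b T a ∧ ¬ ∃ c : E, ∀ v, a v = c • v) :
    ∃ (L' : Subgroup L) (W : Submodule E V), T ≤ L' ∧ W ≠ ⊥ ∧ W ≠ ⊤ ∧ Sta b L' W ∧
      L'.index * Module.finrank E W = Module.finrank E V ∧
      ∀ U ≤ W, Sta b L' U → U = ⊥ ∨ U = W := by
  classical
  -- a common eigenvector of the commutant
  have htop : (⊤ : Submodule E V) ≠ ⊥ := top_ne_bot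
  obtain ⟨v₀, -, hv₀, hv₀'⟩ := common (fun a : {a : Module.End E V // Com b T a} => (a : Module.End E V))
    (fun a => ⟨(a : Module.End E V).charpoly, (LinearMap.charpoly_monic _).ne_zero,
      IsAlgClosed.splits _, LinearMap.aeval_self_charpoly _⟩)
    (fun a a' v => LinearMap.congr_fun (hcomm a a' a.2 a'.2) v) _ ⊤ le_rfl htop
    (fun _ _ _ => trivial)
  choose χ hχ using hv₀'
  -- the weight space
  let W : Submodule E V :=
    { carrier := {w | ∀ a : {a : Module.End E V // Com b T a}, (a : Module.End E V) w = χ a • w}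
      add_mem' := fun {x y} hx hy a => by rw [map_add, hx a, hy a, smul_add]
      zero_mem' := fun a => by rw [map_zero, smul_zero]
      smul_mem' := fun r x hx a => by rw [map_smul, hx a, smul_comm] }
  have hW : ∀ w, w ∈ W ↔ ∀ a : {a : Module.End E V // Com b T a}, (a : Module.End E V) w = χ a • w :=
    fun w => Iff.rfl
  have hW0 : W ≠ ⊥ := (Submodule.ne_bot_iff W).2 ⟨v₀, hχ, hv₀⟩
  have hW1 : W ≠ ⊤ := by
    intro h
    obtain ⟨a, ha, hac⟩ := hns
    exact hac ⟨χ ⟨a, ha⟩, fun v => (by rw [h]; trivial : v ∈ W) ⟨a, ha⟩⟩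
  have hχu : ∀ (a : {a : Module.End E V // Com b T a}) (w : V), w ∈ W → w ≠ 0 → ∀ r : E,
      (a : Module.End E V) w = r • w → χ a = r := by
    intro a w hw hw0 r hr
    have h3 : (χ a - r) • w = 0 := by rw [sub_smul, ← hw a, hr, sub_self]
    rcases smul_eq_zero.1 h3 with h | h
    · exact sub_eq_zero.1 h
    · exact absurd h hw0
  -- conjugation
  let cj : L → {a : Module.End E V // Com b T a} → {a : Module.End E V // Com b T a} := fun g a =>
    ⟨b g⁻¹ * a * b g, by
      have := a.2.conj g⁻¹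
      rwa [inv_inv] at this⟩
  have hcj : ∀ g a v, ((cj g a : Module.End E V)) v = b g⁻¹ ((a : Module.End E V) (b g v)) :=
    fun g a v => rfl
  have hcjmul : ∀ g h a, cj h (cj g a) = cj (g * h) a := by
    intro g h a
    apply Subtype.ext
    refine LinearMap.ext fun v => ?_
    rw [hcj, hcj, hcj, mul_inv_rev, b_mul, b_mul]
  have hbw : ∀ g a w, w ∈ W → (a : {a : Module.End E V // Com b T a}).1 (b g w) = χ (cj g a) • b g w := by
    intro g a w hw
    have h1 := hw (cj g a)
    rw [hcj] at h1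
    have h2 := congrArg (b g) h1
    rw [b_inv', map_smul] at h2
    exact h2
  -- the stabilizer of the weight
  let L' : Subgroup L :=
    { carrier := {g | ∀ a, χ (cj g a) = χ a}
      one_mem' := fun a => by
        congr 1
        apply Subtype.ext
        refine LinearMap.ext fun v => ?_
        rw [hcj]
        simp
      mul_mem' := fun {g h} hg hh a => by rw [← hcjmul, hh, hg]
      inv_mem' := fun {g} hg a => by
        rw [← hg (cj g⁻¹ a), hcjmul, inv_mul_cancel]
        congr 1
        apply Subtype.ext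
        refine LinearMap.ext fun v => ?_
        rw [hcj]
        simp }
  have hL' : ∀ g, g ∈ L' ↔ ∀ a, χ (cj g a) = χ a := fun g => Iff.rfl
  have hTL : T ≤ L' := by
    intro t ht a
    congr 1
    apply Subtype.ext
    refine LinearMap.ext fun v => ?_
    rw [hcj]
    have h1 := LinearMap.congr_fun (a.2 t ht) v
    have h2 : (a : Module.End E V) (b t v) = b t ((a : Module.End E V) v) := h1
    rw [h2, b_inv]
  have hLW : Sta b L' W := by
    intro g hg w hw a
    rw [hbw g a w hw, hg a]
  have hLf : L'.FiniteIndex := Subgroup.finiteIndex_of_le hTL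
  have hfin : Finite (L ⧸ L') := Subgroup.finite_quotient_of_finiteIndex
  let _ : Fintype (L ⧸ L') := Fintype.ofFinite _
  -- injectivity
  have hinj : Function.Injective (Phi b L' W) := by
    rw [← LinearMap.ker_eq_bot, LinearMap.ker_eq_bot']
    intro u hu
    rw [Phi_apply] at hu
    have h1 := indep (fun a : {a : Module.End E V // Com b T a} => (a : Module.End E V))
      (fun (q : L ⧸ L') a => χ (cj q.out a)) Finset.univ
      (fun p _ q _ hpq => by
        have h2 : (p.out)⁻¹ * q.out ∈ L' := by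
          intro a
          have h3 := congrFun hpq (cj p.out⁻¹ a)
          simp only [hcjmul] at h3
          rw [← h3, inv_mul_cancel]
          congr 1
          apply Subtype.ext
          refine LinearMap.ext fun v => ?_
          rw [hcj]
          simp
        have h3 := QuotientGroup.eq.2 h2
        rwa [QuotientGroup.out_eq', QuotientGroup.out_eq'] at h3)
      (fun q => b q.out (u q)) (fun q _ a => hbw _ _ _ (u q).2) hu
    funext q
    apply Subtype.ext
    have h2 := h1 q (Finset.mem_univ q)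
    have h3 := congrArg (b q.out⁻¹) h2
    rw [b_inv, map_zero] at h3
    exact h3
  have hle : L'.index * Module.finrank E W ≤ Module.finrank E V := by
    have h1 := LinearMap.finrank_le_finrank_of_injective hinj
    rw [Module.finrank_pi_fintype, Finset.sum_const, Finset.card_univ, smul_eq_mul] at h1
    rwa [Subgroup.index_eq_card, Nat.card_eq_fintype_card]
  refine ⟨L', W, hTL, hW0, hW1, hLW, le_antisymm hle (finrank_le hirr L' hLW hW0), ?_⟩
  intro U hUW hU
  by_cases hU0 : U = ⊥
  · exact Or.inl hU0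
  · right
    have h1 := finrank_le hirr L' hU hU0
    have h2 : L'.index * Module.finrank E W ≤ L'.index * Module.finrank E U := hle.trans h1
    have h3 : 0 < L'.index := Nat.pos_of_ne_zero hLf.index_ne_zero
    exact Submodule.eq_of_le_of_finrank_le hUW (Nat.le_of_mul_le_mul_left h2 h3)

/-- **the induction step** -/
theorem step {p : ℕ} [hp : Fact p.Prime]
    (hirr : ∀ U : Submodule E V, (∀ g, ∀ u ∈ U, b g u ∈ U) → U = ⊥ ∨ U = ⊤)
    (M K : Subgroup L) [hMn : M.Normal] [hKn : K.Normal] [hKf : K.FiniteIndex]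
    (hcomm : ∀ a b : L, a * b * a⁻¹ * b⁻¹ ∈ M) (hexp : ∀ a : L, a ^ (p - 1) ∈ M)
    (hM : ∀ x ∈ M, ∃ k : ℕ, x ^ p ^ k ∈ K) {U : Submodule E V} (hU : Sta b K U) (hU0 : U ≠ ⊥)
    (hU1 : U ≠ ⊤) :
    ∃ (L' : Subgroup L) (W : Submodule E V), K ≤ L' ∧ W ≠ ⊥ ∧ W ≠ ⊤ ∧ Sta b L' W ∧
      L'.index * Module.finrank E W = Module.finrank E V ∧
      ∀ U ≤ W, Sta b L' U → U = ⊥ ∨ U = W := by
  classical
  -- a maximal normal subgroup which acts reducibly
  have hex : ∃ d : ℕ, ∃ T : Subgroup L, T.Normal ∧ K ≤ T ∧ T.index = d ∧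
      ∃ U : Submodule E V, Sta b T U ∧ U ≠ ⊥ ∧ U ≠ ⊤ := ⟨_, K, hKn, le_rfl, rfl, U, hU, hU0, hU1⟩
  obtain ⟨T, hTn, hKT, hTd, Y, hY, hY0, hY1⟩ := Nat.find_spec hex
  have hTf : T.FiniteIndex := Subgroup.finiteIndex_of_le hKT
  have hTtop : T ≠ ⊤ := by
    rintro rfl
    rcases hirr Y (fun g u hu => hY g trivial u hu) with h | h
    · exact hY0 h
    · exact hY1 h
  obtain ⟨x, hxT, hx⟩ := exists_cyc (p := p) T M hTtop hcomm hexp (fun x hx => by
    obtain ⟨k, hk⟩ := hM x hx
    exact ⟨k, hKT hk⟩)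
  -- the subgroup generated by `T` and `x`
  have hfinQ : Finite (L ⧸ T) := Subgroup.finite_quotient_of_finiteIndex
  set T₁ : Subgroup L := (Subgroup.zpowers (QuotientGroup.mk' T x)).comap (QuotientGroup.mk' T) with hT₁
  have hzn : (Subgroup.zpowers (QuotientGroup.mk' T x)).Normal := by
    refine ⟨fun n hn g => ?_⟩
    obtain ⟨g, rfl⟩ := QuotientGroup.mk'_surjective T g
    obtain ⟨j, rfl⟩ := Subgroup.mem_zpowers_iff.1 hn
    obtain ⟨i, hi⟩ := hx g
    have h1 : (QuotientGroup.mk' T) g * (QuotientGroup.mk' T) x * ((QuotientGroup.mk' T) g)⁻¹ =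
        ((QuotientGroup.mk' T) x) ^ i := by
      rw [← map_inv, ← map_mul, ← map_mul, ← map_pow]
      exact (QuotientGroup.eq.2 hi).symm
    rw [← conj_zpow, h1]
    exact zpow_mem (pow_mem (Subgroup.mem_zpowers _) i) j
  have hT₁n : T₁.Normal := hzn.comap _
  have hTT₁ : T ≤ T₁ := by
    intro t ht
    rw [hT₁, Subgroup.mem_comap]
    have : QuotientGroup.mk' T t = 1 := (QuotientGroup.eq_one_iff t).2 ht
    rw [this]
    exact one_mem _
  have hxT₁ : x ∈ T₁ := by
    rw [hT₁, Subgroup.mem_comap]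
    exact Subgroup.mem_zpowers _
  have hmem : ∀ y ∈ T₁, ∃ j : ℕ, (x ^ j)⁻¹ * y ∈ T := by
    intro y hy
    rw [hT₁, Subgroup.mem_comap] at hy
    obtain ⟨j, hj⟩ := (mem_powers_iff_mem_zpowers).2 hy
    refine ⟨j, QuotientGroup.eq.1 ?_⟩
    have h1 : (QuotientGroup.mk' T x) ^ j = QuotientGroup.mk' T y := hj
    rw [← map_pow] at h1
    exact h1
  have hlt : T < T₁ := lt_of_le_of_ne hTT₁ fun h => hxT (h ▸ hxT₁)
  have hidx : T₁.index < Nat.find hex := by
    rw [← hTd]
    exact Subgroup.index_strictAnti hlt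
  have hirr₁ : ∀ U : Submodule E V, Sta b T U → (∀ u ∈ U, b x u ∈ U) → U = ⊥ ∨ U = ⊤ := by
    intro U hU hxU
    by_contra hcon
    push Not at hcon
    refine Nat.find_min hex hidx ⟨T₁, hT₁n, hKT.trans hTT₁, rfl, U, ?_, hcon.1, hcon.2⟩
    intro y hy u hu
    obtain ⟨j, hj⟩ := hmem y hy
    have e : y = x ^ j * ((x ^ j)⁻¹ * y) := by group
    rw [e, b_mul]
    have h1 : ∀ j : ℕ, ∀ u ∈ U, b (x ^ j) u ∈ U := by
      intro j
      induction j with
      | zero => intro u hu; simpa using hu
      | succ j ih => intro u hu; rw [pow_succ, b_mul]; exact ih _ (hxU u hu)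
    exact h1 j _ (hU _ hj u hu)
  have hk : T.index ≠ 0 := hTf.index_ne_zero
  have hxk : x ^ T.index ∈ T := Subgroup.pow_index_mem T x
  obtain ⟨a, ha, hac⟩ := exists_proj hirr T hY hY0 hY1
  obtain ⟨L', W, h1, h2⟩ := weights hirr T (fun a a' ha ha' => com_comm hirr₁ hk hxk ha ha')
    ⟨a, fun t ht => LinearMap.ext fun v => ha t ht v, hac⟩
  exact ⟨L', W, hKT.trans h1, h2⟩

end main

end Pool.Agent.U172.FM
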