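import Mathlib

/-!
# Representations over local rings: congruence subgroups, stabilizers of subspaces
-/

set_option autoImplicit false
set_option linter.unusedSectionVars false

namespace Pool.Agent.U172.FM

open IsLocalRing Matrix

section mat

variable {A : Type*} [CommRing A] {n : ℕ}

/-- all entries are in the ideal -/
def InI (I : Ideal A) (Z : Matrix (Fin n) (Fin n) A) : Prop := ∀ i j, Z i j ∈ I

lemma InI.mul {I J : Ideal A} {Z W : Matrix (Fin n) (Fin n) A} (hZ : InI I Z) (hW : InI J W) :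
    InI (I * J) (Z * W) := fun i j => by
  rw [Matrix.mul_apply]
  exact Ideal.sum_mem _ fun k _ => Ideal.mul_mem_mul (hZ i k) (hW k j)

lemma InI.mulL {I : Ideal A} {Z : Matrix (Fin n) (Fin n) A} (hZ : InI I Z)
    (W : Matrix (Fin n) (Fin n) A) : InI I (W * Z) := fun i j => by
  rw [Matrix.mul_apply]
  exact Ideal.sum_mem _ fun k _ => Ideal.mul_mem_left _ _ (hZ k j)

lemma InI.add {I : Ideal A} {Z W : Matrix (Fin n) (Fin n) A} (hZ : InI I Z) (hW : InI I W) :
    InI I (Z + W) := fun i j => add_mem (hZ i j) (hW i j)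

lemma InI.mono {I J : Ideal A} (h : I ≤ J) {Z : Matrix (Fin n) (Fin n) A} (hZ : InI I Z) :
    InI J Z := fun i j => h (hZ i j)

lemma InI.zero {I : Ideal A} : InI I (0 : Matrix (Fin n) (Fin n) A) := fun _ _ => I.zero_mem

lemma InI.sum {ι : Type*} {I : Ideal A} (s : Finset ι) (f : ι → Matrix (Fin n) (Fin n) A)
    (h : ∀ i ∈ s, InI I (f i)) : InI I (∑ i ∈ s, f i) := fun i j => by
  rw [Matrix.sum_apply]
  exact Ideal.sum_mem _ fun k hk => h k hk i j

/-- powers of a matrix which is the identity modulo `I` -/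
lemma InI.powSub {I : Ideal A} {Y : Matrix (Fin n) (Fin n) A} (hY : InI I (Y - 1)) (k : ℕ) :
    InI I (Y ^ k - 1) := by
  rw [← mul_geom_sum Y k]
  intro i j
  have := (hY.mul (fun i j => (Submodule.mem_top : (∑ i ∈ Finset.range k, Y ^ i) i j ∈
    (⊤ : Ideal A)))) i j
  rwa [Ideal.mul_top] at this

variable [IsLocalRing A]

lemma liftP {p : ℕ} (hp : (p : A) ∈ maximalIdeal A) {X : Matrix (Fin n) (Fin n) A}
    (hX : InI (maximalIdeal A) (X - 1)) (m : ℕ) : InI (maximalIdeal A ^ (m + 1)) (X ^ p ^ m - 1) := by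
  induction m with
  | zero => simpa using hX
  | succ m ih =>
    set Y := X ^ p ^ m with hY
    have e : X ^ p ^ (m + 1) - 1 = (Y - 1) * ∑ i ∈ Finset.range p, Y ^ i := by
      rw [mul_geom_sum, hY, ← pow_mul, pow_succ]
    rw [e, pow_succ]
    refine ih.mul ?_
    have e2 : ∑ i ∈ Finset.range p, Y ^ i =
        (p : Matrix (Fin n) (Fin n) A) + ∑ i ∈ Finset.range p, (Y ^ i - 1) := by
      rw [Finset.sum_sub_distrib, Finset.sum_const, Finset.card_range, nsmul_one]
      abel
    rw [e2]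
    refine InI.add (fun i j => ?_) (InI.sum _ _ fun i _ => ?_)
    · rw [← Matrix.diagonal_natCast]
      by_cases hij : i = j
      · subst hij
        rw [Matrix.diagonal_apply_eq]
        exact hp
      · rw [Matrix.diagonal_apply_ne _ hij]
        exact Ideal.zero_mem _
    · exact (InI.mono (Ideal.pow_le_self (Nat.succ_ne_zero m)) ih).powSub i

lemma lift1 {p : ℕ} [hpp : Fact p.Prime] (hp : (p : A) ∈ maximalIdeal A)
    {X : Matrix (Fin n) (Fin n) A} {N : ℕ}
    (hX : InI (maximalIdeal A) ((X - 1) ^ N)) : InI (maximalIdeal A) (X ^ p ^ N - 1) := by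
  set f : Matrix (Fin n) (Fin n) A →+* Matrix (Fin n) (Fin n) (ResidueField A) :=
    (residue A).mapMatrix with hf
  have hz : ∀ Z : Matrix (Fin n) (Fin n) A, InI (maximalIdeal A) Z ↔ f Z = 0 := by
    intro Z
    constructor
    · intro h
      ext i j
      exact (residue_eq_zero_iff _).2 (h i j)
    · intro h i j
      exact (residue_eq_zero_iff _).1 (congrFun (congrFun h i) j)
  have hc : CharP (ResidueField A) p := by
    have h1 : residue A (p : A) = 0 := (residue_eq_zero_iff _).2 hp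
    rw [map_natCast] at h1
    exact (CharP.charP_iff_prime_eq_zero hpp.out).2 h1
  rw [hz] at hX ⊢
  have hc2 : CharP (Matrix (Fin n) (Fin n) (ResidueField A)) p ∨ n = 0 := by
    rcases Nat.eq_zero_or_pos n with h | h
    · exact Or.inr h
    · have : Nonempty (Fin n) := ⟨⟨0, h⟩⟩
      exact Or.inl inferInstance
  rcases hc2 with hc2 | hn
  · rw [map_sub, map_pow, map_one] at *
    have h3 : (f X - 1) ^ p ^ N = f X ^ p ^ N - 1 := by
      have := sub_pow_char_pow_of_commute p N (Commute.one_right (f X))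
      rwa [one_pow] at this
    rw [← h3]
    obtain ⟨k, hk⟩ : ∃ k, p ^ N = N + k :=
      ⟨p ^ N - N, by have := Nat.lt_pow_self hpp.out.one_lt (n := N); omega⟩
    rw [hk, pow_add]
    have h4 : (f X - 1) ^ N = 0 := by
      have := hX
      rwa [map_sub, map_one] at this
    rw [h4, zero_mul]
  · subst hn
    exact Subsingleton.elim _ _

end mat

section rep

variable {A : Type*} [CommRing A] [IsLocalRing A] {n : ℕ}
variable {G : Type*} [Group G]

/-- the elements whose matrix is the identity modulo `𝔪 ^ m` -/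
def cong (ρ : G →* GL (Fin n) A) (m : ℕ) : Subgroup G :=
  ((GeneralLinearGroup.map (n := Fin n) (Ideal.Quotient.mk (maximalIdeal A ^ m))).comp ρ).ker

lemma mem_cong {ρ : G →* GL (Fin n) A} {m : ℕ} {g : G} :
    g ∈ cong ρ m ↔ InI (maximalIdeal A ^ m) ((ρ g : Matrix (Fin n) (Fin n) A) - 1) := by
  constructor
  · intro h i j
    have h1 : GeneralLinearGroup.map (n := Fin n) (Ideal.Quotient.mk (maximalIdeal A ^ m)) (ρ g) = 1 := h
    have h2 := congrArg (fun u : GL (Fin n) (A ⧸ maximalIdeal A ^ m) =>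
      (u : Matrix (Fin n) (Fin n) (A ⧸ maximalIdeal A ^ m)) i j) h1
    rw [Matrix.sub_apply, ← Ideal.Quotient.eq_zero_iff_mem, map_sub]
    have h3 : Ideal.Quotient.mk (maximalIdeal A ^ m) ((ρ g : Matrix (Fin n) (Fin n) A) i j) =
      (1 : Matrix (Fin n) (Fin n) (A ⧸ maximalIdeal A ^ m)) i j := h2
    rw [h3, Matrix.one_apply, Matrix.one_apply]
    split_ifs <;> simp
  · intro h
    show GeneralLinearGroup.map (n := Fin n) (Ideal.Quotient.mk (maximalIdeal A ^ m)) (ρ g) = 1
    apply Units.ext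
    ext i j
    have h1 := h i j
    rw [Matrix.sub_apply, ← Ideal.Quotient.eq_zero_iff_mem, map_sub, sub_eq_zero] at h1
    show Ideal.Quotient.mk (maximalIdeal A ^ m) ((ρ g : Matrix (Fin n) (Fin n) A) i j) =
      (1 : Matrix (Fin n) (Fin n) (A ⧸ maximalIdeal A ^ m)) i j
    rw [h1, Matrix.one_apply, Matrix.one_apply]
    split_ifs <;> simp

instance cong_normal (ρ : G →* GL (Fin n) A) (m : ℕ) : (cong ρ m).Normal := MonoidHom.normal_ker _

lemma cong_anti (ρ : G →* GL (Fin n) A) {m m' : ℕ} (h : m ≤ m') : cong ρ m' ≤ cong ρ m := by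
  intro g hg
  rw [mem_cong] at hg ⊢
  exact hg.mono (Ideal.pow_le_pow_right h)

/-- residually unipotent elements -/
lemma cong_pow {p : ℕ} [Fact p.Prime] (hp : (p : A) ∈ maximalIdeal A)
    (ρ : G →* GL (Fin n) A) {g : G}
    (hres : ∃ N : ℕ, InI (maximalIdeal A) (((ρ g : Matrix (Fin n) (Fin n) A) - 1) ^ N)) (m : ℕ) :
    ∃ k : ℕ, g ^ p ^ k ∈ cong ρ m := by
  obtain ⟨N, hN⟩ := hres
  refine ⟨N + m, mem_cong.2 ?_⟩
  have h3 := liftP hp (lift1 hp hN) m
  have e : (ρ (g ^ p ^ (N + m)) : Matrix (Fin n) (Fin n) A) =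
      ((ρ g : Matrix (Fin n) (Fin n) A) ^ p ^ N) ^ p ^ m := by
    rw [map_pow, Units.val_pow_eq_pow_val, ← pow_mul, ← pow_add]
  rw [e]
  exact h3.mono (Ideal.pow_le_pow_right (by omega))

lemma cong_open [TopologicalSpace G] [TopologicalSpace A] (hA : IsAdic (maximalIdeal A))
    {ρ : G →* GL (Fin n) A} (hρ : Continuous ρ)
    (m : ℕ) : IsOpen (cong ρ m : Set G) := by
  have hρ' : ∀ i j, Continuous fun σ => (ρ σ : Matrix (Fin n) (Fin n) A) i j := fun i j =>
    (Units.continuous_val.comp hρ).matrix_elem i j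
  have hopen' : ∀ a : A, IsOpen {x : A | x - a ∈ maximalIdeal A ^ m} := by
    intro a
    rw [isOpen_iff_mem_nhds]
    intro x hx
    refine ((hA.hasBasis_nhds x).mem_iff).2 ⟨m, trivial, ?_⟩
    rintro _ ⟨y, hy, rfl⟩
    show x + y - a ∈ maximalIdeal A ^ m
    have e : x + y - a = (x - a) + y := by ring
    rw [e]
    exact add_mem hx hy
  have e : (cong ρ m : Set G) = ⋂ i, ⋂ j, (fun σ => (ρ σ : Matrix (Fin n) (Fin n) A) i j) ⁻¹'
      {x | x - (1 : Matrix (Fin n) (Fin n) A) i j ∈ maximalIdeal A ^ m} := by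
    ext g
    simp only [Set.mem_iInter, Set.mem_preimage, Set.mem_ofPred_eq]
    exact mem_cong
  rw [e]
  exact isOpen_iInter_of_finite fun i => isOpen_iInter_of_finite fun j =>
    (hopen' _).preimage (hρ' i j)

end rep

section act

variable {A : Type*} [CommRing A] [IsLocalRing A] [IsNoetherianRing A] {n : ℕ}
variable {G : Type*} [Group G]
variable (E : Type*) [Field E] [Algebra A E]

/-- the action on `E ^ n` -/
noncomputable def act (ρ : G →* GL (Fin n) A) (g : G) : (Fin n → E) →ₗ[E] (Fin n → E) :=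
  Matrix.mulVecLin ((ρ g : Matrix (Fin n) (Fin n) A).map (algebraMap A E))

variable {E}

lemma act_apply (ρ : G →* GL (Fin n) A) (g : G) (v : Fin n → E) :
    act E ρ g v = ((ρ g : Matrix (Fin n) (Fin n) A).map (algebraMap A E)) *ᵥ v := rfl

lemma act_mul (ρ : G →* GL (Fin n) A) (g h : G) (v : Fin n → E) :
    act E ρ (g * h) v = act E ρ g (act E ρ h v) := by
  rw [act_apply, act_apply, act_apply, mulVec_mulVec, map_mul, Units.val_mul, Matrix.map_mul]

lemma act_one (ρ : G →* GL (Fin n) A) (v : Fin n → E) : act E ρ 1 v = v := by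
  rw [act_apply, map_one, Units.val_one, Matrix.map_one _ (map_zero _) (map_one _), one_mulVec]

/-- the action as a homomorphism -/
noncomputable def actHom (E : Type*) [Field E] [Algebra A E]
    (ρ : G →* GL (Fin n) A) : G →* Module.End E (Fin n → E) where
  toFun g := act E ρ g
  map_one' := by
    ext1
    ext1
    simp [act_one]
  map_mul' g h := by
    refine LinearMap.ext fun v => ?_
    rw [act_mul]
    rfl

lemma actHom_apply (ρ : G →* GL (Fin n) A) (g : G) : actHom E ρ g = act E ρ g := rfl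

/-- the stabilizer of a subspace -/
def stb (ρ : G →* GL (Fin n) A) (W : Submodule E (Fin n → E)) : Subgroup G where
  carrier := {g | ∀ w, w ∈ W ↔ act E ρ g w ∈ W}
  mul_mem' := by
    intro a b ha hb w
    rw [act_mul, ← ha, ← hb]
  one_mem' := by
    intro w
    rw [act_one]
  inv_mem' := by
    intro a ha w
    rw [ha (act E ρ a⁻¹ w), ← act_mul, mul_inv_cancel, act_one]

lemma le_stb {ρ : G →* GL (Fin n) A} {W : Submodule E (Fin n → E)} {D : Subgroup G}
    (h : ∀ g ∈ D, ∀ w ∈ W, act E ρ g w ∈ W) : D ≤ stb ρ W := by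
  intro g hg w
  refine ⟨h g hg w, fun hw => ?_⟩
  have := h g⁻¹ (inv_mem hg) _ hw
  rwa [← act_mul, inv_mul_cancel, act_one] at this

/-- the stabilizer is closed -/
lemma stb_of_lim (ρ : G →* GL (Fin n) A) (W : Submodule E (Fin n → E)) {D' : Subgroup G}
    (hD' : D' ≤ stb ρ W) {x : G}
    (hx : ∀ m : ℕ, ∃ δ ∈ D', δ⁻¹ * x ∈ cong ρ m) : x ∈ stb ρ W := by
  have main : ∀ y : G, (∀ m : ℕ, ∃ δ ∈ D', δ⁻¹ * y ∈ cong ρ m) → ∀ w ∈ W, act E ρ y w ∈ W := by
    intro y hy w hw
    -- the linear map from the matrices over `A` to the quotient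
    let φ : Matrix (Fin n) (Fin n) A →ₗ[A] ((Fin n → E) ⧸ W) :=
      { toFun := fun M => W.mkQ ((M.map (algebraMap A E)) *ᵥ w)
        map_add' := fun M N => by
          rw [← map_add, ← add_mulVec]
          congr 2
          ext i j
          simp
        map_smul' := fun a M => by
          have e1 : (a • M).map (algebraMap A E) = algebraMap A E a • M.map (algebraMap A E) := by
            ext i j
            rw [Matrix.map_apply, Matrix.smul_apply, Matrix.smul_apply, Matrix.map_apply,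
              smul_eq_mul, smul_eq_mul, map_mul]
          rw [RingHom.id_apply, e1, smul_mulVec, map_smul, algebraMap_smul] }
    have hφ : ∀ M, φ M = W.mkQ ((M.map (algebraMap A E)) *ᵥ w) := fun M => rfl
    have hfin : Module.Finite A (LinearMap.range φ) := inferInstance
    have h1 := Ideal.iInf_pow_smul_eq_bot_of_isLocalRing (R := A) (M := LinearMap.range φ)
      (maximalIdeal A) (Ideal.IsPrime.ne_top inferInstance)
    have h2 : (⟨φ (ρ y : Matrix (Fin n) (Fin n) A), ⟨_, rfl⟩⟩ : LinearMap.range φ) ∈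
        (⨅ i : ℕ, maximalIdeal A ^ i • ⊤ : Submodule A (LinearMap.range φ)) := by
      rw [Submodule.mem_iInf]
      intro m
      obtain ⟨δ, hδ, hu⟩ := hy m
      have h3 : φ (ρ δ : Matrix (Fin n) (Fin n) A) = 0 := by
        rw [hφ]
        exact (Submodule.Quotient.mk_eq_zero W).2 ((hD' hδ w).1 hw)
      have e : (ρ y : Matrix (Fin n) (Fin n) A) - (ρ δ : Matrix (Fin n) (Fin n) A) =
          (ρ δ : Matrix (Fin n) (Fin n) A) *
            ((ρ (δ⁻¹ * y) : Matrix (Fin n) (Fin n) A) - 1) := by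
        rw [mul_sub, mul_one, ← Units.val_mul, ← map_mul, mul_inv_cancel_left]
      have h4 : InI (maximalIdeal A ^ m)
          ((ρ y : Matrix (Fin n) (Fin n) A) - (ρ δ : Matrix (Fin n) (Fin n) A)) := by
        rw [e]
        exact (mem_cong.1 hu).mulL _
      set Z := (ρ y : Matrix (Fin n) (Fin n) A) - (ρ δ : Matrix (Fin n) (Fin n) A) with hZ
      have h5 : (⟨φ (ρ y : Matrix (Fin n) (Fin n) A), ⟨_, rfl⟩⟩ : LinearMap.range φ) =
          ∑ i, ∑ j, Z i j • (⟨φ (Matrix.single i j 1), ⟨_, rfl⟩⟩ : LinearMap.range φ) := by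
        apply Subtype.ext
        have h6 : φ (ρ y : Matrix (Fin n) (Fin n) A) = φ Z := by
          rw [hZ, map_sub, h3, sub_zero]
        have h7 : Z = ∑ i, ∑ j, Z i j • Matrix.single i j 1 := by
          conv_lhs => rw [Matrix.matrix_eq_sum_single Z]
          refine Finset.sum_congr rfl fun i _ => Finset.sum_congr rfl fun j _ => ?_
          rw [Matrix.smul_single, smul_eq_mul, mul_one]
        show φ (ρ y : Matrix (Fin n) (Fin n) A) = _
        rw [h6]
        conv_lhs => rw [h7]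
        simp only [map_sum, map_smul, AddSubmonoidClass.coe_finsetSum, Submodule.coe_smul]
      rw [h5]
      exact Submodule.sum_mem _ fun i _ => Submodule.sum_mem _ fun j _ =>
        Submodule.smul_mem_smul (h4 i j) trivial
    rw [h1, Submodule.mem_bot] at h2
    have h3 := congrArg Subtype.val h2
    exact (Submodule.Quotient.mk_eq_zero W).1 h3
  intro w
  refine ⟨main x hx w, fun hw => ?_⟩
  have h1 := main x⁻¹ (fun m => ?_) _ hw
  · rwa [← act_mul, inv_mul_cancel, act_one] at h1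
  · obtain ⟨δ, hδ, hu⟩ := hx m
    refine ⟨δ⁻¹, inv_mem hδ, ?_⟩
    have := (cong_normal ρ m).conj_mem _ (inv_mem hu) δ
    convert this using 1
    group

/-- a closed subgroup of finite index contains a congruence subgroup -/
lemma cong_le_of_lim (ρ : G →* GL (Fin n) A) (S : Subgroup G) (hf : S.FiniteIndex)
    (hS : ∀ x : G, (∀ m : ℕ, ∃ δ ∈ S, δ⁻¹ * x ∈ cong ρ m) → x ∈ S) : ∃ m, cong ρ m ≤ S := by
  by_contra hcon
  push Not at hcon
  have h1 : ∀ m, ∃ g ∈ cong ρ m, g ∉ S := by
    intro m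
    obtain ⟨g, hg, hg'⟩ := SetLike.not_le_iff_exists.1 (hcon m)
    exact ⟨g, hg, hg'⟩
  choose g hg hgS using h1
  have hfin : Finite (G ⧸ S) := Subgroup.finite_quotient_of_finiteIndex
  -- infinitely many of the `g m` are in the same coset
  obtain ⟨q, hq⟩ := Finite.exists_infinite_fiber (fun m : ℕ => (QuotientGroup.mk (g m) : G ⧸ S))
  have hq' : (fun m : ℕ => (QuotientGroup.mk (g m) : G ⧸ S)) ⁻¹' {q} |>.Infinite :=
    Set.infinite_coe_iff.1 hq
  obtain ⟨m₀, hm₀⟩ := hq'.nonempty
  apply hgS m₀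
  apply hS
  intro m
  obtain ⟨k, hk, hmk⟩ := hq'.exists_gt m
  -- `g m₀` and `g k` are in the same coset and `g k` is close to `1`
  have h2 : (QuotientGroup.mk (g k) : G ⧸ S) = QuotientGroup.mk (g m₀) := by
    have e1 : (QuotientGroup.mk (g k) : G ⧸ S) = q := hk
    have e2 : (QuotientGroup.mk (g m₀) : G ⧸ S) = q := hm₀
    rw [e1, e2]
  have h3 := QuotientGroup.eq.1 h2
  refine ⟨(g k)⁻¹ * g m₀, h3, ?_⟩
  have h4 : g k ∈ cong ρ m := cong_anti ρ hmk.le (hg k)
  have := (cong_normal ρ m).conj_mem _ h4 (g m₀)⁻¹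
  convert this using 1
  group

end act

end Pool.Agent.U172.FM
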