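import Mathlib

/-!
# Common eigenvectors and cyclic normal subgroups
-/

set_option autoImplicit false
set_option linter.unusedSectionVars false

namespace Pool.Agent.U172.FM

section eig

variable {F : Type*} [Field F] {V : Type*} [AddCommGroup V] [Module F V] [FiniteDimensional F V]

/-- an endomorphism annihilated by a split polynomial has an eigenvector in a stable subspace -/
lemma eig_in (f : Module.End F V) {q : Polynomial F} (hq0 : q ≠ 0) (hq : q.Splits)
    (hqf : Polynomial.aeval f q = 0) {U : Submodule F V} (hU0 : U ≠ ⊥)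
    (hU : ∀ u ∈ U, f u ∈ U) : ∃ r : F, ∃ u ∈ U, u ≠ 0 ∧ f u = r • u := by
  have hnt : Nontrivial U := (Submodule.nontrivial_iff_ne_bot).2 hU0
  set g : Module.End F U := f.restrict hU with hg
  have h1 : Polynomial.aeval g q = 0 := by
    have h2 : ∀ p : Polynomial F, ∀ u : U, ((Polynomial.aeval g p) u : V) = (Polynomial.aeval f p) u := by
      intro p
      induction p using Polynomial.induction_on' with
      | add p q hp hq => intro u; simp [hp u, hq u]
      | monomial k c =>
        intro u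
        rw [Polynomial.aeval_monomial, Polynomial.aeval_monomial]
        have h3 : ∀ k : ℕ, ∀ u : U, ((g ^ k) u : V) = (f ^ k) u := by
          intro k
          induction k with
          | zero => intro u; rfl
          | succ k ih => intro u; rw [pow_succ, pow_succ, Module.End.mul_apply, Module.End.mul_apply, ih]; rfl
        simp [h3 k u, Algebra.algebraMap_eq_smul_one]
    ext u
    rw [h2, hqf]
    rfl
  have hdvd : minpoly F g ∣ q := minpoly.dvd F g h1
  have hs : (minpoly F g).Splits := hq.of_dvd hq0 hdvd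
  have hdeg : (minpoly F g).degree ≠ 0 := by
    have := minpoly.degree_pos (A := F) (Algebra.IsIntegral.isIntegral g)
    exact this.ne'
  obtain ⟨r, hr⟩ := hs.exists_eval_eq_zero hdeg
  have hev := Module.End.hasEigenvalue_of_isRoot (f := g) hr
  obtain ⟨u, hu⟩ := hev.exists_hasEigenvector
  refine ⟨r, u, u.2, fun h => hu.2 (Subtype.ext h), ?_⟩
  have := congrArg (Subtype.val) hu.apply_eq_smul
  exact this

/-- a common eigenvector -/
lemma common {ι : Type*} (f : ι → Module.End F V)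
    (hs : ∀ i, ∃ q : Polynomial F, q ≠ 0 ∧ q.Splits ∧ Polynomial.aeval (f i) q = 0)
    (hc : ∀ i j v, f i (f j v) = f j (f i v)) :
    ∀ m : ℕ, ∀ W : Submodule F V, Module.finrank F W ≤ m → W ≠ ⊥ → (∀ i, ∀ w ∈ W, f i w ∈ W) →
      ∃ v ∈ W, v ≠ 0 ∧ ∀ i, ∃ c : F, f i v = c • v := by
  intro m
  induction m with
  | zero =>
    intro W hm hW0
    exact absurd (Submodule.finrank_eq_zero.1 (Nat.le_zero.1 hm)) hW0
  | succ m ih =>
    intro W hm hW0 hW
    by_cases hsc : ∀ i, ∃ c : F, ∀ w ∈ W, f i w = c • w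
    · obtain ⟨v, hv, hv0⟩ := (Submodule.ne_bot_iff W).1 hW0
      exact ⟨v, hv, hv0, fun i => let ⟨c, hc⟩ := hsc i; ⟨c, hc v hv⟩⟩
    · push Not at hsc
      obtain ⟨t, htc⟩ := hsc
      obtain ⟨q, hq0, hq, hqf⟩ := hs t
      obtain ⟨r, u, hu, hu0, hur⟩ := eig_in (f t) hq0 hq hqf hW0 (hW t)
      set U : Submodule F V := W ⊓ LinearMap.ker (f t - r • LinearMap.id) with hUdef
      have hmem : ∀ w, w ∈ U ↔ w ∈ W ∧ f t w = r • w := by
        intro w
        rw [hUdef, Submodule.mem_inf, LinearMap.mem_ker, LinearMap.sub_apply, LinearMap.smul_apply,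
          LinearMap.id_apply, sub_eq_zero]
      have hlt : U < W := by
        refine lt_of_le_of_ne inf_le_left fun h => ?_
        obtain ⟨w, hw, hw'⟩ := htc r
        rw [← h] at hw
        exact hw' ((hmem w).1 hw).2
      have hfin := Submodule.finrank_lt_finrank_of_lt hlt
      obtain ⟨v, hv, hv0, hv'⟩ := ih U (by omega) ((Submodule.ne_bot_iff U).2
        ⟨u, (hmem u).2 ⟨hu, hur⟩, hu0⟩) (fun s w hw => by
          obtain ⟨h1, h2⟩ := (hmem w).1 hw
          exact (hmem _).2 ⟨hW s w h1, by rw [hc t s w, h2, map_smul]⟩)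
      exact ⟨v, ((hmem v).1 hv).1, hv0, hv'⟩

end eig

section cyc

/-- common eigenvector in a finite elementary abelian group -/
lemma eig_add {V : Type*} [AddCommGroup V] [Finite V] {p : ℕ} [hp : Fact p.Prime]
    (hV : ∀ x : V, p • x = 0) {ι : Type*} (α : ι → V →+ V) (hc : ∀ i j v, α i (α j v) = α j (α i v))
    (hpow : ∀ i v, (α i)^[p] v = α i v) (hnt : ∃ v : V, v ≠ 0) :
    ∃ v : V, v ≠ 0 ∧ ∀ i, ∃ k : ℕ, α i v = k • v := by
  let inst : Module (ZMod p) V := AddCommGroup.zmodModule (n := p) hV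
  have hfd : FiniteDimensional (ZMod p) V := Module.Finite.of_finite
  obtain ⟨z₀, hz₀⟩ := hnt
  have htop : (⊤ : Submodule (ZMod p) V) ≠ (⊥ : Submodule (ZMod p) V) := by
    intro h
    apply hz₀
    have h1 : z₀ ∈ (⊤ : Submodule (ZMod p) V) := trivial
    rwa [h, Submodule.mem_bot] at h1
  have hit : ∀ i (k : ℕ) v, (((α i).toZModLinearMap p : Module.End (ZMod p) V) ^ k) v = (α i)^[k] v := by
    intro i k v
    rw [Module.End.pow_apply]
    rfl
  obtain ⟨v, -, hv0, hv⟩ := common (fun i => ((α i).toZModLinearMap p : Module.End (ZMod p) V))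
    (fun i => ⟨Polynomial.X ^ p - Polynomial.X,
      FiniteField.X_pow_card_sub_X_ne_zero (ZMod p) hp.out.one_lt, by
        have h1 := Polynomial.splits_X_pow_nat_card_sub_X (K := ZMod p)
        rwa [Nat.card_zmod] at h1, by
        rw [map_sub, map_pow, Polynomial.aeval_X, sub_eq_zero]
        refine LinearMap.ext fun x => ?_
        rw [hit, hpow]
        rfl⟩) (fun i j v => hc i j v) _ ⊤ le_rfl htop (fun _ _ _ => trivial)
  refine ⟨v, hv0, fun i => ?_⟩
  obtain ⟨c, hc⟩ := hv i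
  refine ⟨c.val, ?_⟩
  have h1 : c • v = c.val • v := by
    conv_lhs => rw [← ZMod.natCast_zmod_val c, Nat.cast_smul_eq_nsmul]
  rw [← h1, ← hc]
  rfl

/-- the same for a commutative subgroup of a finite group -/
lemma eig_sub {Q : Type*} [Group Q] [Finite Q] {p : ℕ} [hp : Fact p.Prime] (Ω : Subgroup Q)
    (hcom : ∀ a ∈ Ω, ∀ b ∈ Ω, a * b = b * a) (hΩ : ∀ a ∈ Ω, a ^ p = 1) {ι : Type*}
    (α : ι → Q → Q) (hα : ∀ i, ∀ x ∈ Ω, α i x ∈ Ω) (hmul : ∀ i, ∀ x ∈ Ω, ∀ y ∈ Ω, α i (x * y) = α i x * α i y)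
    (hc : ∀ i j, ∀ x ∈ Ω, α i (α j x) = α j (α i x)) (hpow : ∀ i, ∀ x ∈ Ω, (α i)^[p] x = α i x)
    (hnt : ∃ x ∈ Ω, x ≠ 1) : ∃ v : Q, (v ∈ Ω ∧ v ≠ 1) ∧ ∀ i, ∃ k : ℕ, α i v = v ^ k := by
  let _ : CommGroup Ω := { (inferInstance : Group Ω) with
    mul_comm := fun a b => Subtype.ext (hcom a a.2 b b.2) }
  have hfin : Finite (Additive Ω) := inferInstanceAs (Finite Ω)
  let β : ι → (Ω →* Ω) := fun i => MonoidHom.mk' (fun x => ⟨α i x, hα i x x.2⟩)
    (fun x y => Subtype.ext (hmul i x x.2 y y.2))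
  have hβ : ∀ i (k : ℕ) (x : Ω), (((β i)^[k] x : Ω) : Q) = (α i)^[k] x := by
    intro i k
    induction k with
    | zero => intro x; rfl
    | succ k ih =>
      intro x
      rw [Function.iterate_succ, Function.comp_apply, ih, Function.iterate_succ, Function.comp_apply]
      rfl
  obtain ⟨x, hx, hx1⟩ := hnt
  obtain ⟨v, hv0, hv⟩ := eig_add (V := Additive Ω) (p := p) (fun x => by
      apply Additive.toMul.injective
      apply Subtype.ext
      have h1 : ((((Additive.toMul x : Ω) ^ p : Ω)) : Q) = 1 := by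
        rw [Subgroup.coe_pow]
        exact hΩ _ (Additive.toMul x : Ω).2
      exact h1) (fun i => (β i).toAdditive) (fun i j v => by
      apply Additive.toMul.injective
      apply Subtype.ext
      exact hc i j _ (Additive.toMul v : Ω).2) (fun i v => by
      apply Additive.toMul.injective
      apply Subtype.ext
      have h1 : ∀ k : ℕ, (((Additive.toMul ((⇑(β i).toAdditive)^[k] v)) : Ω) : Q) =
          (α i)^[k] ((Additive.toMul v : Ω) : Q) := by
        intro k
        induction k with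
        | zero => rfl
        | succ k ih =>
          rw [Function.iterate_succ', Function.comp_apply, Function.iterate_succ',
            Function.comp_apply, ← ih]
          rfl
      rw [h1, hpow i _ (Additive.toMul v : Ω).2]
      rfl) ⟨Additive.ofMul ⟨x, hx⟩, fun h => hx1 (by
        have h2 := congrArg (fun x : Additive Ω => ((Additive.toMul x : Ω) : Q)) h
        exact h2)⟩
  refine ⟨((Additive.toMul v : Ω) : Q), ⟨(Additive.toMul v : Ω).2, fun h => hv0 ?_⟩, fun i => ?_⟩
  · apply Additive.toMul.injective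
    apply Subtype.ext
    exact h
  · obtain ⟨k, hk⟩ := hv i
    refine ⟨k, ?_⟩
    have h2 := congrArg (fun x : Additive Ω => ((Additive.toMul x : Ω) : Q)) hk
    have h3 : ((Additive.toMul (k • v) : Ω) : Q) = ((Additive.toMul v : Ω) : Q) ^ k := by
      rw [toMul_nsmul, Subgroup.coe_pow]
    exact h2.trans h3

/-- a finite group `Q` with a normal `p`-subgroup `P`, `Q / P` abelian of exponent dividing `p - 1`,
has a non-trivial cyclic normal subgroup -/
lemma exists_cyc_fin {Q : Type*} [Group Q] [Finite Q] [Nontrivial Q] {p : ℕ} [hp : Fact p.Prime]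
    (P : Subgroup Q) [hPn : P.Normal] (hP : IsPGroup p P) (hcomm : ∀ a b : Q, a * b * a⁻¹ * b⁻¹ ∈ P)
    (hexp : ∀ a : Q, a ^ (p - 1) ∈ P) :
    ∃ z : Q, z ≠ 1 ∧ ∀ g : Q, ∃ i : ℕ, g * z * g⁻¹ = z ^ i := by
  classical
  by_cases hP1 : P = ⊥
  · obtain ⟨z, hz⟩ := exists_ne (1 : Q)
    refine ⟨z, hz, fun g => ⟨1, ?_⟩⟩
    have h1 := hcomm g z
    rw [hP1, Subgroup.mem_bot, mul_inv_eq_one] at h1
    rw [pow_one, h1]
  · -- the elements of order `p` in the center of `P`
    let Ω : Subgroup Q :=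
      { carrier := {z | z ∈ P ∧ (∀ y ∈ P, y * z = z * y) ∧ z ^ p = 1}
        one_mem' := ⟨one_mem _, fun y _ => by simp, one_pow _⟩
        mul_mem' := by
          rintro a b ⟨ha, ha', ha''⟩ ⟨hb, hb', hb''⟩
          refine ⟨mul_mem ha hb, fun y hy => ?_, ?_⟩
          · rw [← mul_assoc, ha' y hy, mul_assoc, hb' y hy, mul_assoc]
          · have hab : Commute a b := hb' a ha
            rw [hab.mul_pow, ha'', hb'', one_mul]
        inv_mem' := by
          rintro a ⟨ha, ha', ha''⟩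
          refine ⟨inv_mem ha, fun y hy => ?_, ?_⟩
          · have := ha' y hy
            rw [eq_inv_mul_iff_mul_eq, ← mul_assoc, ← this, mul_assoc, mul_inv_cancel, mul_one]
          · rw [inv_pow, ha'', inv_one] }
    have hmem : ∀ z, z ∈ Ω ↔ z ∈ P ∧ (∀ y ∈ P, y * z = z * y) ∧ z ^ p = 1 := fun z => Iff.rfl
    have hconj : ∀ g : Q, ∀ z ∈ Ω, g * z * g⁻¹ ∈ Ω := by
      rintro g z ⟨h1, h2, h3⟩
      refine ⟨hPn.conj_mem z h1 g, fun y hy => ?_, ?_⟩
      · have h4 := h2 (g⁻¹ * y * g) (by simpa using hPn.conj_mem y hy g⁻¹)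
        have e1 : y * (g * z * g⁻¹) = g * (g⁻¹ * y * g * z) * g⁻¹ := by group
        have e2 : g * z * g⁻¹ * y = g * (z * (g⁻¹ * y * g)) * g⁻¹ := by group
        rw [e1, e2, h4]
      · rw [conj_pow, h3, mul_one, mul_inv_cancel]
    have hΩ1 : ∃ z ∈ Ω, z ≠ 1 := by
      have hnt : Nontrivial P := (Subgroup.nontrivial_iff_ne_bot P).2 hP1
      have hcen := hP.center_nontrivial
      have hcp : IsPGroup p (Subgroup.center P) := hP.to_subgroup _
      obtain ⟨n, hn⟩ := IsPGroup.iff_card.1 hcp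
      have hn0 : n ≠ 0 := by
        rintro rfl
        rw [pow_zero] at hn
        have h1 := Finite.one_lt_card (α := Subgroup.center P)
        omega
      have hdvd : p ∣ Nat.card (Subgroup.center P) := by
        rw [hn]
        exact dvd_pow_self p hn0
      obtain ⟨z, hz⟩ := exists_prime_orderOf_dvd_card' p hdvd
      refine ⟨((z : P) : Q), ⟨(z : P).2, fun y hy => ?_, ?_⟩, ?_⟩
      · have h1 := Subgroup.mem_center_iff.1 z.2 ⟨y, hy⟩
        exact congrArg Subtype.val h1
      · have h1 : z ^ p = 1 := by rw [← hz]; exact pow_orderOf_eq_one z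
        have h2 := congrArg (fun x : Subgroup.center P => ((x : P) : Q)) h1
        simpa using h2
      · intro h1
        have h2 : z = 1 := Subtype.ext (Subtype.ext h1)
        rw [h2, orderOf_one] at hz
        exact hp.out.one_lt.ne hz
    -- the vector space
    obtain ⟨z₀, hz₀, hz₀'⟩ := hΩ1
    have hone : ∀ g ∈ P, ∀ x ∈ Ω, g * x * g⁻¹ = x := by
      intro g hg x hx
      rw [hx.2.1 g hg, mul_assoc, mul_inv_cancel, mul_one]
    obtain ⟨v, hv1, hv⟩ := eig_sub (p := p) Ω (fun a ha b hb => hb.2.1 a ha.1)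
      (fun a ha => ha.2.2) (fun (g : Q) (x : Q) => g * x * g⁻¹) hconj
      (fun g x _ y _ => by group)
      (fun g h x hx => by
        have e : g * (h * x * h⁻¹) * g⁻¹ = (g * h * g⁻¹ * h⁻¹) * (h * (g * x * g⁻¹) * h⁻¹) *
            (g * h * g⁻¹ * h⁻¹)⁻¹ := by group
        rw [e]
        exact hone _ (hcomm g h) _ (hconj _ _ (hconj _ _ hx)))
      (fun g x hx => by
        have h1 : ∀ k : ℕ, (fun x => g * x * g⁻¹)^[k] x = g ^ k * x * (g ^ k)⁻¹ := by
          intro k
          induction k with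
          | zero => simp
          | succ k ih =>
            rw [Function.iterate_succ', Function.comp_apply, ih, pow_succ']
            group
        have e : p = (p - 1) + 1 := (Nat.succ_pred_prime hp.out).symm
        conv_lhs => rw [e, Function.iterate_succ', Function.comp_apply, h1]
        rw [hone _ (hexp g) x hx]) ⟨z₀, hz₀, hz₀'⟩
    exact ⟨v, hv1.2, hv⟩

/-- the same for a normal subgroup `T` of finite index of a group `L` -/
lemma exists_cyc {L : Type*} [Group L] {p : ℕ} [hp : Fact p.Prime] (T M : Subgroup L) [hTn : T.Normal]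
    [hMn : M.Normal] [hTf : T.FiniteIndex] (hT : T ≠ ⊤) (hcomm : ∀ a b : L, a * b * a⁻¹ * b⁻¹ ∈ M)
    (hexp : ∀ a : L, a ^ (p - 1) ∈ M) (hM : ∀ x ∈ M, ∃ k : ℕ, x ^ p ^ k ∈ T) :
    ∃ x : L, x ∉ T ∧ ∀ g : L, ∃ i : ℕ, (x ^ i)⁻¹ * (g * x * g⁻¹) ∈ T := by
  have hfin : Finite (L ⧸ T) := Subgroup.finite_quotient_of_finiteIndex
  have hnt : Nontrivial (L ⧸ T) := by
    by_contra hcon
    rw [not_nontrivial_iff_subsingleton] at hcon
    apply hT
    rw [eq_top_iff]
    intro g _
    have h3 : (QuotientGroup.mk g : L ⧸ T) = 1 := Subsingleton.elim _ _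
    exact (QuotientGroup.eq_one_iff g).1 h3
  set P : Subgroup (L ⧸ T) := M.map (QuotientGroup.mk' T) with hPdef
  have hPn : P.Normal := Subgroup.Normal.map hMn _ (QuotientGroup.mk'_surjective T)
  have hP : IsPGroup p P := by
    rintro ⟨_, x, hx, rfl⟩
    obtain ⟨k, hk⟩ := hM x hx
    refine ⟨k, Subtype.ext ?_⟩
    show (QuotientGroup.mk' T x) ^ p ^ k = 1
    rw [← map_pow]
    exact (QuotientGroup.eq_one_iff _).2 hk
  obtain ⟨z, hz, hz'⟩ := exists_cyc_fin P hP (fun a b => by
    obtain ⟨a, rfl⟩ := QuotientGroup.mk'_surjective T a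
    obtain ⟨b, rfl⟩ := QuotientGroup.mk'_surjective T b
    exact ⟨_, hcomm a b, by simp⟩) (fun a => by
    obtain ⟨a, rfl⟩ := QuotientGroup.mk'_surjective T a
    exact ⟨_, hexp a, by simp⟩)
  obtain ⟨x, rfl⟩ := QuotientGroup.mk'_surjective T z
  refine ⟨x, fun hx => hz ((QuotientGroup.eq_one_iff x).2 hx), fun g => ?_⟩
  obtain ⟨i, hi⟩ := hz' (QuotientGroup.mk' T g)
  refine ⟨i, ?_⟩
  rw [← map_inv, ← map_mul, ← map_mul, ← map_pow] at hi
  exact QuotientGroup.eq.1 hi.symm

end cyc

end Pool.Agent.U172.FM
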