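import Pool.Agent.U172.FM.Cliff3

/-!
# Irreducible representations are induced from strongly irreducible ones
-/

set_option autoImplicit false
set_option linter.unusedSectionVars false

namespace Pool.Agent.U172.FM

section main

variable {E : Type*} [Field E] [IsAlgClosed E] [CharZero E] {V : Type*} [AddCommGroup V]
  [Module E V] [FiniteDimensional E V] [Nontrivial V]
variable {G : Type*} [Group G] {a : G →* Module.End E V}

/-- the restriction of a representation to a stable subspace -/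
noncomputable def resW (a : G →* Module.End E V) (L : Subgroup G) (W : Submodule E V)
    (h : Sta a L W) : L →* Module.End E W where
  toFun g := (a (g : G)).restrict (fun w hw => h g g.2 w hw)
  map_one' := by
    refine LinearMap.ext fun w => Subtype.ext ?_
    simp
  map_mul' g g' := by
    refine LinearMap.ext fun w => Subtype.ext ?_
    simp

lemma resW_apply (L : Subgroup G) (W : Submodule E V) (h : Sta a L W) (g : L) (w : W) :
    ((resW a L W h g w : W) : V) = a (g : G) (w : V) := rfl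

theorem induced {p : ℕ} [hp : Fact p.Prime]
    (hirr : ∀ U : Submodule E V, (∀ g, ∀ u ∈ U, a g u ∈ U) → U = ⊥ ∨ U = ⊤)
    (M : Subgroup G) [hMn : M.Normal] (K : ℕ → Subgroup G) (hK : ∀ m m', m ≤ m' → K m' ≤ K m)
    (hKn : ∀ m, (K m).Normal) (hKf : ∀ m, (K m).FiniteIndex)
    (hcomm : ∀ a b : G, a * b * a⁻¹ * b⁻¹ ∈ M) (hexp : ∀ a : G, a ^ (p - 1) ∈ M)
    (hM : ∀ m, ∀ x ∈ M, ∃ k : ℕ, x ^ p ^ k ∈ K m) :
    ∃ (L : Subgroup G) (W : Submodule E V), (∃ m, K m ≤ L) ∧ W ≠ ⊥ ∧ Sta a L W ∧
      L.index * Module.finrank E W = Module.finrank E V ∧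
      ∀ T : Subgroup G, (∃ m, K m ≤ T) → ∀ U ≤ W, Sta a (T ⊓ L) U → U = ⊥ ∨ U = W := by
  classical
  have hex : ∃ d : ℕ, ∃ (L : Subgroup G) (W : Submodule E V), (∃ m, K m ≤ L) ∧ W ≠ ⊥ ∧ Sta a L W ∧
      L.index * Module.finrank E W = Module.finrank E V ∧ Module.finrank E W = d ∧
      ∀ U ≤ W, Sta a L U → U = ⊥ ∨ U = W := by
    refine ⟨_, ⊤, ⊤, ⟨0, le_top⟩, top_ne_bot, fun _ _ _ _ => trivial, ?_, rfl, fun U _ hU => ?_⟩
    · rw [Subgroup.index_top, one_mul, finrank_top]
    · exact hirr U fun g u hu => hU g trivial u hu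
  obtain ⟨L, W, ⟨m₁, hm₁⟩, hW0, hLW, hidx, hWd, hWirr⟩ := Nat.find_spec hex
  refine ⟨L, W, ⟨m₁, hm₁⟩, hW0, hLW, hidx, ?_⟩
  rintro T ⟨m₂, hm₂⟩ U hUW hU
  by_contra hcon
  push Not at hcon
  set m := max m₁ m₂ with hm
  have hKL : K m ≤ L := (hK _ _ (le_max_left _ _)).trans hm₁
  have hKT : K m ≤ T := (hK _ _ (le_max_right _ _)).trans hm₂
  have hnt : Nontrivial W := (Submodule.nontrivial_iff_ne_bot).2 hW0
  set b := resW a L W hLW with hb
  have hbirr : ∀ U : Submodule E W, (∀ g, ∀ u ∈ U, b g u ∈ U) → U = ⊥ ∨ U = ⊤ := by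
    intro U hU
    have h1 : Sta a L (U.map W.subtype) := by
      rintro g hg _ ⟨u, hu, rfl⟩
      exact ⟨b ⟨g, hg⟩ u, hU _ u hu, rfl⟩
    rcases hWirr _ (by rintro _ ⟨u, -, rfl⟩; exact u.2) h1 with h | h
    · left
      rw [eq_bot_iff]
      intro u hu
      have h2 : (u : V) ∈ U.map W.subtype := ⟨u, hu, rfl⟩
      rw [h, Submodule.mem_bot] at h2
      exact Subtype.ext h2
    · right
      rw [eq_top_iff]
      intro u _
      have h2 : (u : V) ∈ U.map W.subtype := by rw [h]; exact u.2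
      obtain ⟨u', hu', h3⟩ := h2
      have h4 : u' = u := Subtype.ext h3
      rwa [← h4]
  have hMn' : (M.subgroupOf L).Normal := hMn.subgroupOf L
  have hKn' : ((K m).subgroupOf L).Normal := (hKn m).subgroupOf L
  have hKf1 := hKf m
  have hKf' : ((K m).subgroupOf L).FiniteIndex := inferInstance
  obtain ⟨L', W', h1, h2, h3, h4, h5, h6⟩ := step (p := p) (b := b) hbirr (M.subgroupOf L)
    ((K m).subgroupOf L)
    (fun x y => by
      rw [Subgroup.mem_subgroupOf]
      push_cast
      exact hcomm _ _)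
    (fun x => by
      rw [Subgroup.mem_subgroupOf]
      push_cast
      exact hexp _)
    (fun x hx => by
      rw [Subgroup.mem_subgroupOf] at hx
      obtain ⟨k, hk⟩ := hM m x hx
      refine ⟨k, ?_⟩
      rw [Subgroup.mem_subgroupOf]
      push_cast
      exact hk) (U := U.comap W.subtype)
    (fun g hg u hu => by
      rw [Subgroup.mem_subgroupOf] at hg
      exact hU _ ⟨hKT hg, g.2⟩ _ hu)
    (fun h => hcon.1 (by
      rw [eq_bot_iff]
      intro u hu
      have h1 : (⟨u, hUW hu⟩ : W) ∈ U.comap W.subtype := hu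
      rw [h, Submodule.mem_bot] at h1
      exact congrArg Subtype.val h1))
    (fun h => hcon.2 (le_antisymm hUW fun u hu => by
      have h1 : (⟨u, hu⟩ : W) ∈ U.comap W.subtype := by rw [h]; trivial
      exact h1))
  have hfr : Module.finrank E (W'.map W.subtype) = Module.finrank E W' :=
    (Submodule.equivMapOfInjective W.subtype W.injective_subtype W').symm.finrank_eq
  have hlt : Module.finrank E (W'.map W.subtype) < Nat.find hex := by
    rw [hfr, ← hWd]
    exact Submodule.finrank_lt h3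
  refine Nat.find_min hex hlt ⟨L'.map L.subtype, W'.map W.subtype, ⟨m, ?_⟩, ?_, ?_, ?_, rfl, ?_⟩
  · intro k hk
    exact ⟨⟨k, hKL hk⟩, h1 (by rw [Subgroup.mem_subgroupOf]; exact hk), rfl⟩
  · intro h
    apply h2
    rw [eq_bot_iff]
    intro w hw
    have h7 : (w : V) ∈ W'.map W.subtype := ⟨w, hw, rfl⟩
    rw [h, Submodule.mem_bot] at h7
    exact Subtype.ext h7
  · rintro _ ⟨g, hg, rfl⟩ _ ⟨w, hw, rfl⟩
    exact ⟨b g w, h4 g hg w hw, rfl⟩
  · rw [Subgroup.index_map_subtype, hfr, mul_comm L'.index, mul_assoc, h5, hidx]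
  · intro U hU hUs
    rcases h6 (U.comap W.subtype) (by
        intro w hw
        obtain ⟨w', hw', h7⟩ := hU (show (w : V) ∈ U from hw)
        have h8 : w' = w := Subtype.ext h7
        rwa [← h8]) (fun g hg w hw => hUs (g : G) ⟨g, hg, rfl⟩ _ hw) with h | h
    · left
      rw [eq_bot_iff]
      intro u hu
      have hu' : u ∈ W := by
        obtain ⟨w, -, rfl⟩ := hU hu
        exact w.2
      have h7 : (⟨u, hu'⟩ : W) ∈ U.comap W.subtype := hu
      rw [h, Submodule.mem_bot] at h7
      exact congrArg Subtype.val h7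
    · right
      rw [← h]
      ext u
      constructor
      · intro hu
        have hu' : u ∈ W := by
          obtain ⟨w, -, rfl⟩ := hU hu
          exact w.2
        exact ⟨⟨u, hu'⟩, hu, rfl⟩
      · rintro ⟨w, hw, rfl⟩
        exact hw

end main

end Pool.Agent.U172.FM
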