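import Pool.Agent.U172.FM.Loc
import Pool.Agent.U172.FM.Ind

/-!
# The general theorem
-/

set_option autoImplicit false
set_option linter.unusedSectionVars false

namespace Pool.Agent.U172.FM

open IsLocalRing Matrix

/-- the kernel is closed -/
lemma ker_of_lim {A : Type*} [CommRing A] [IsLocalRing A] [IsNoetherianRing A] {n : ℕ}
    {H : Type*} [Group H] (ρ : H →* GL (Fin n) A) (x : H)
    (hx : ∀ m : ℕ, ∃ δ ∈ ρ.ker, δ⁻¹ * x ∈ cong ρ m) : x ∈ ρ.ker := by
  rw [MonoidHom.mem_ker]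
  apply Units.ext
  ext i j
  rw [← sub_eq_zero, Units.val_one]
  have h1 : (ρ x : Matrix (Fin n) (Fin n) A) i j - (1 : Matrix (Fin n) (Fin n) A) i j ∈
      (⨅ m : ℕ, maximalIdeal A ^ m : Ideal A) := by
    rw [Submodule.mem_iInf]
    intro m
    obtain ⟨δ, hδ, hu⟩ := hx m
    have h2 := mem_cong.1 hu i j
    rw [map_mul, map_inv, (MonoidHom.mem_ker).1 hδ, inv_one, one_mul] at h2
    exact h2
  rw [Ideal.iInf_pow_eq_bot_of_isLocalRing _ (Ideal.IsPrime.ne_top inferInstance)] at h1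
  exact h1

section dims

variable {E : Type*} [Field E] {V : Type*} [AddCommGroup V] [Module E V] [FiniteDimensional E V]
variable {L : Type*} [Group L] {b : L →* Module.End E V}

/-- the dimension of a subspace stable under a normal subgroup -/
lemma dim_le (hirr : ∀ U : Submodule E V, (∀ g, ∀ u ∈ U, b g u ∈ U) → U = ⊥ ∨ U = ⊤)
    (K : Subgroup L) [hK : K.Normal] {W : Submodule E V} (hW0 : W ≠ ⊥) (hKW : Sta b K W)
    (hW : ∀ U ≤ W, Sta b K U → U = ⊥ ∨ U = W) {U : Submodule E V} (hU : Sta b K U) (hU0 : U ≠ ⊥) :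
    Module.finrank E W ≤ Module.finrank E U := by
  obtain ⟨Z, hZ, hUZ⟩ := compl hirr K hU
  -- some conjugate of `W` is not contained in `Z`
  obtain ⟨g, hg⟩ : ∃ g : L, ¬ W.map (b g) ≤ Z := by
    by_contra hcon
    push Not at hcon
    have h1 : (⨆ g : L, W.map (b g)) ≤ Z := iSup_le hcon
    rcases hirr (⨆ g : L, W.map (b g)) (fun g u hu => by
      have h1 : (⨆ g : L, W.map (b g)) ≤ (⨆ g : L, W.map (b g)).comap (b g) := by
        refine iSup_le fun h => ?_
        rintro _ ⟨s, hs, rfl⟩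
        show b g (b h s) ∈ (⨆ g : L, W.map (b g))
        rw [← b_mul]
        exact Submodule.mem_iSup_of_mem (g * h) ⟨s, hs, rfl⟩
      exact h1 hu) with h | h
    · apply hW0
      rw [eq_bot_iff, ← h]
      intro s hs
      exact Submodule.mem_iSup_of_mem 1 ⟨s, hs, by rw [map_one]; rfl⟩
    · apply hU0
      have h2 : Z = ⊤ := by rw [eq_top_iff, ← h]; exact h1
      have h3 := hUZ.inf_eq_bot
      rwa [h2, inf_top_eq] at h3
  have hdis : W.map (b g) ⊓ Z = ⊥ := by
    by_contra h0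
    set S' : Submodule E V := (W.map (b g) ⊓ Z).map (b g⁻¹) with hS'
    have h1 : Sta b K S' := ((hKW.map g).inf hZ).map g⁻¹
    have h2 : S' ≤ W := by
      rintro _ ⟨_, ⟨⟨s, hs, rfl⟩, -⟩, rfl⟩
      rw [b_inv]
      exact hs
    rcases hW S' h2 h1 with h3 | h3
    · apply h0
      rw [eq_bot_iff]
      intro y hy
      have h5 : b g⁻¹ y ∈ S' := ⟨y, hy, rfl⟩
      rw [h3, Submodule.mem_bot] at h5
      rw [Submodule.mem_bot, ← b_inv' b g y, h5, map_zero]
    · apply hg
      rintro _ ⟨s, hs, rfl⟩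
      rw [← h3] at hs
      obtain ⟨y, hy, rfl⟩ := hs
      rw [b_inv']
      exact hy.2
  have h1 := Submodule.finrank_sup_add_finrank_inf_eq (W.map (b g)) Z
  rw [hdis, finrank_bot, add_zero] at h1
  have h2 := Submodule.finrank_le (W.map (b g) ⊔ Z)
  have h3 := Submodule.finrank_add_eq_of_isCompl hUZ
  have h4 : Module.finrank E (W.map (b g)) = Module.finrank E W :=
    (Submodule.equivMapOfInjective (b g) (b_inj b g) W).symm.finrank_eq
  omega

end dims

section main

variable {G : Type*} [Group G] [TopologicalSpace G] [IsTopologicalGroup G] [CompactSpace G]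
variable {A : Type*} [CommRing A] [IsLocalRing A] [IsNoetherianRing A] [TopologicalSpace A] {n : ℕ}

variable {p : ℕ} [hp : Fact p.Prime] {R : Set G} {C U X H : Subgroup G} (hU : PExt p R C U)
    (hUH : U ≤ H) (hR : ∀ c ∈ C, ∀ τ ∈ R, c * τ * c⁻¹ ∈ R) (hX : Det p R C X)
    (hA : IsAdic (maximalIdeal A)) (hpA : (p : A) ∈ maximalIdeal A) {ρ : H →* GL (Fin n) A}
    (hρ : Continuous ρ)
    (hres : ∀ g : H, (g : G) ∈ C → ∃ N : ℕ,
      InI (maximalIdeal A) (((ρ g : Matrix (Fin n) (Fin n) A) - 1) ^ N))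
    (hram : ∀ g : H, (g : G) ∈ R → ρ g = 1)

include hU hUH hR hX hA hpA hρ hres hram

/-- local-global principle for closed subgroups of `H` -/
theorem closedSub (S : Subgroup H) (hS : ∀ x : H, (∀ m : ℕ, ∃ δ ∈ S, δ⁻¹ * x ∈ cong ρ m) → x ∈ S)
    (hSX : S.relIndex (X.subgroupOf H) ≠ 0) : S.FiniteIndex := by
  have hUf := finIdx_of_open hU.isOpen
  have hf : (U.subgroupOf H).FiniteIndex := inferInstance
  refine locglob ρ (N := U.subgroupOf H) hf hS (fun m g hg => ?_) hSX
  obtain ⟨δ, h1, h2, h3⟩ := dense hU hUH hR hX hA hpA hρ hres hram m g hg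
  exact ⟨δ, h1, h2, h3⟩

/-- **potentially trivial representations have finite image** -/
theorem potTriv (h : ρ.ker.relIndex (X.subgroupOf H) ≠ 0) : (Set.range ρ).Finite := by
  have h1 := closedSub hU hUH hR hX hA hpA hρ hres hram ρ.ker (ker_of_lim ρ) h
  have h2 : Finite (H ⧸ ρ.ker) := Subgroup.finite_quotient_of_finiteIndex
  have h3 : Finite ρ.range := Finite.of_equiv _ (QuotientGroup.quotientKerEquivRange ρ).toEquiv
  rw [← MonoidHom.coe_range]
  exact Set.toFinite _

/-- **potentially stable subspaces** -/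
theorem potStab {E : Type*} [Field E] [Algebra A E] (W : Submodule E (Fin n → E))
    (h : (stb ρ W).relIndex (X.subgroupOf H) ≠ 0) : ∃ m, cong ρ m ≤ stb ρ W := by
  have h1 := closedSub hU hUH hR hX hA hpA hρ hres hram (stb ρ W)
    (fun x hx => stb_of_lim ρ W le_rfl hx) h
  exact cong_le_of_lim ρ (stb ρ W) h1 (fun x hx => stb_of_lim ρ W le_rfl hx)

end main

section ind

variable {G : Type*} [Group G] [TopologicalSpace G] [IsTopologicalGroup G] [CompactSpace G]
variable {A : Type*} [CommRing A] [IsLocalRing A] [IsNoetherianRing A] [TopologicalSpace A] {n : ℕ}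

variable {p : ℕ} [hp : Fact p.Prime] {R : Set G} {B C U H : Subgroup G} (hU : PExt p R C U)
    (hUH : U ≤ H) (hHB : H ≤ B) (hCB : C ≤ B) (hCn : ∀ b ∈ B, ∀ c ∈ C, b * c * b⁻¹ ∈ C)
    (hcomm : ∀ a ∈ B, ∀ b ∈ B, a * b * a⁻¹ * b⁻¹ ∈ C) (hexp : ∀ b ∈ B, b ^ (p - 1) ∈ C)
    (hA : IsAdic (maximalIdeal A)) (hpA : (p : A) ∈ maximalIdeal A) {ρ : H →* GL (Fin n) A}
    (hρ : Continuous ρ)
    (hres : ∀ g : H, (g : G) ∈ C → ∃ N : ℕ,
      InI (maximalIdeal A) (((ρ g : Matrix (Fin n) (Fin n) A) - 1) ^ N))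

include hU hUH hHB hCB hCn hcomm hexp hA hpA hρ hres

/-- the structure of irreducible representations -/
theorem indStr {E : Type*} [Field E] [IsAlgClosed E] [CharZero E] [Algebra A E] (hn : n ≠ 0)
    (hirr : ∀ W : Submodule E (Fin n → E), (∀ g, ∀ w ∈ W, act E ρ g w ∈ W) → W = ⊥ ∨ W = ⊤) :
    ∃ (L : Subgroup H) (W : Submodule E (Fin n → E)), IsOpen (L : Set H) ∧ W ≠ ⊥ ∧
      Sta (actHom E ρ) L W ∧ L.index * Module.finrank E W = n ∧
      (∃ a : ℕ, L.index ∣ C.relIndex B * p ^ a) ∧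
      (∀ T : Subgroup H, (∃ m, cong ρ m ≤ T) → ∀ U ≤ W, Sta (actHom E ρ) (T ⊓ L) U → U = ⊥ ∨ U = W) ∧
      ∀ U : Submodule E (Fin n → E), U ≠ ⊥ → (∃ m, cong ρ m ≤ stb ρ U) →
        Module.finrank E W ≤ Module.finrank E U := by
  classical
  have hHo : IsOpen (H : Set G) := Subgroup.isOpen_mono hUH hU.isOpen
  have hHc : CompactSpace H := isCompact_iff_compactSpace.1
    (Subgroup.isClosed_of_isOpen _ hHo).isCompact
  have hnt : Nontrivial (Fin n → E) := by
    have : Nonempty (Fin n) := ⟨⟨0, Nat.pos_of_ne_zero hn⟩⟩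
    infer_instance
  have hcongf : ∀ m, (cong ρ m).FiniteIndex := fun m => finIdx_of_open (cong_open hA hρ m)
  set M : Subgroup H := C.subgroupOf H with hM
  have hMn : M.Normal := ⟨fun x hx g => by
    rw [hM, Subgroup.mem_subgroupOf] at hx ⊢
    push_cast
    exact hCn _ (hHB g.2) _ hx⟩
  obtain ⟨L, W, ⟨m₀, hm₀⟩, hW0, hLW, hidx, hstr⟩ := induced (p := p) (a := actHom E ρ)
    (fun U hU => hirr U hU) M (cong ρ) (fun m m' h => cong_anti ρ h) (fun m => inferInstance) hcongf
    (fun a b => by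
      rw [hM, Subgroup.mem_subgroupOf]
      push_cast
      exact hcomm _ (hHB a.2) _ (hHB b.2))
    (fun a => by
      rw [hM, Subgroup.mem_subgroupOf]
      push_cast
      exact hexp _ (hHB a.2))
    (fun m x hx => cong_pow hpA ρ (hres x hx) m)
  rw [Module.finrank_fin_fun] at hidx
  refine ⟨L, W, Subgroup.isOpen_mono hm₀ (cong_open hA hρ m₀), hW0, hLW, hidx, ?_, hstr, ?_⟩
  · -- the index
    have hMf : M.FiniteIndex := by
      have hUf := finIdx_of_open hU.isOpen
      have hCf : C.FiniteIndex := Subgroup.finiteIndex_of_le hU.le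
      exact inferInstance
    have h1 : (cong ρ m₀ ⊓ M) ≤ L := inf_le_left.trans hm₀
    have h2 := Subgroup.index_dvd_of_le h1
    have h3 : (cong ρ m₀ ⊓ M).relIndex M * M.index = (cong ρ m₀ ⊓ M).index :=
      Subgroup.relIndex_mul_index inf_le_right
    have h4 : ∃ a, (cong ρ m₀ ⊓ M).relIndex M = p ^ a := by
      rw [Subgroup.inf_relIndex_right]
      have hn1 : ((cong ρ m₀).subgroupOf M).Normal := (cong_normal ρ m₀).subgroupOf M
      have hf0 := hcongf m₀
      have hf1 : ((cong ρ m₀).subgroupOf M).FiniteIndex := inferInstance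
      have hfin : Finite (M ⧸ (cong ρ m₀).subgroupOf M) := Subgroup.finite_quotient_of_finiteIndex
      have hP : IsPGroup p (M ⧸ (cong ρ m₀).subgroupOf M) := by
        intro x
        obtain ⟨c, rfl⟩ := QuotientGroup.mk_surjective x
        obtain ⟨k, hk⟩ := cong_pow hpA ρ (hres c c.2) m₀
        refine ⟨k, ?_⟩
        rw [← QuotientGroup.mk_pow, QuotientGroup.eq_one_iff, Subgroup.mem_subgroupOf]
        exact_mod_cast hk
      obtain ⟨s, hs⟩ := IsPGroup.iff_card.1 hP
      refine ⟨s, ?_⟩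
      rw [← hs]
      rfl
    obtain ⟨a, ha⟩ := h4
    refine ⟨a, h2.trans ?_⟩
    rw [← h3, ha, mul_comm]
    refine Nat.mul_dvd_mul_right ?_ _
    -- the index of `M` divides `C.relIndex B`
    have h5 : M.index = C.relIndex H := rfl
    rw [h5, ← Subgroup.relIndex_subgroupOf (H := C) hHB]
    have hCBn : (C.subgroupOf B).Normal := ⟨fun x hx g => by
      rw [Subgroup.mem_subgroupOf] at hx ⊢
      push_cast
      exact hCn _ g.2 _ hx⟩
    exact Subgroup.relIndex_dvd_index_of_normal _ _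
  · rintro U hU0 ⟨m₁, hm₁⟩
    set m := max m₀ m₁ with hm
    have hKL : cong ρ m ≤ L := (cong_anti ρ (le_max_left _ _)).trans hm₀
    have hKU : cong ρ m ≤ stb ρ U := (cong_anti ρ (le_max_right _ _)).trans hm₁
    refine dim_le (b := actHom E ρ) hirr (cong ρ m) hW0 (fun t ht w hw => hLW t (hKL ht) w hw) ?_
      (fun t ht u hu => ((hKU ht) u).1 hu) hU0
    intro U' hU' hs
    refine hstr (cong ρ m) ⟨m, le_rfl⟩ U' hU' (fun g hg u hu => hs g hg.1 u hu)

end ind

end Pool.Agent.U172.FM
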