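import Pool.Agent.U172.FM.Loc
import Pool.Agent.W571.FM.Frob
import Pool.Agent.W327.FM.TameAbs
import Pool.Agent.W258.FM.TameFin
import Pool.Agent.W134.FM.Cyclo
import Pool.Agent.W215.FM.Gen
import Pool.Agent.W924.UF.FrobZeta
import Pool.Agent.W569.UF.CycC
import Pool.Agent.W398.UH.Inert

/-!
# Inertia and decomposition groups which detect the homomorphisms to `ℤ/p`
-/

set_option autoImplicit false
set_option linter.unusedSectionVars false

namespace Pool.Agent.U172.FM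

open NumberField Pool.Agent.W569.FM Pool.Agent.W569.UF Pool.Agent.W569.UH
open scoped Pointwise

/-- the inertia elements at the primes outside `S` -/
def outer (S : Set ℕ) : Set (GF ℚ) :=
  {τ | ∃ P : Ideal (OO ℚ), P.IsMaximal ∧ (∀ l ∈ S, (l : OO ℚ) ∉ P) ∧ InInertia P τ}

lemma smul_max {P : Ideal (OO ℚ)} (hP : P.IsMaximal) (g : GF ℚ) : (g • P).IsMaximal := by
  have h : g • P = P.map (MulSemiringAction.toRingEquiv (GF ℚ) (OO ℚ) g) := rfl
  rw [h]
  exact Ideal.map_isMaximal_of_equiv _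

lemma nat_mem_smul {P : Ideal (OO ℚ)} (g : GF ℚ) (l : ℕ) : (l : OO ℚ) ∈ g • P ↔ (l : OO ℚ) ∈ P := by
  rw [Ideal.mem_pointwise_smul_iff_inv_smul_mem]
  have h : g⁻¹ • (l : OO ℚ) = (l : OO ℚ) := map_natCast (MulSemiringAction.toRingHom (GF ℚ) (OO ℚ) g⁻¹) l
  rw [h]

lemma inInertia_inv {P : Ideal (OO ℚ)} {τ : GF ℚ} (h : InInertia P τ) : InInertia P τ⁻¹ := by
  intro x
  have h1 := h (τ⁻¹ • x)
  rw [smul_inv_smul] at h1
  have h2 := P.neg_mem h1
  rwa [neg_sub] at h2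

lemma inertia_smul {P : Ideal (OO ℚ)} {τ : GF ℚ} (g : GF ℚ) (hτ : InInertia P τ) :
    InInertia (g • P) (g * τ * g⁻¹) := by
  intro x
  rw [Ideal.mem_pointwise_smul_iff_inv_smul_mem, smul_sub]
  have h1 := hτ (g⁻¹ • x)
  have e : g⁻¹ • (g * τ * g⁻¹) • x = τ • g⁻¹ • x := by
    rw [smul_smul, smul_smul]
    congr 1
    group
  rw [e]
  exact h1

lemma inertia_smul_iff {P : Ideal (OO ℚ)} {τ : GF ℚ} (g : GF ℚ) :
    InInertia (g • P) τ ↔ InInertia P (g⁻¹ * τ * g) := by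
  constructor
  · intro h
    have := inertia_smul g⁻¹ h
    rwa [inv_smul_smul, inv_inv] at this
  · intro h
    have := inertia_smul g h
    convert this using 1
    group

lemma outer_conj (S : Set ℕ) (g : GF ℚ) {τ : GF ℚ} (hτ : τ ∈ outer S) : g * τ * g⁻¹ ∈ outer S := by
  obtain ⟨P, hP, hS, h⟩ := hτ
  exact ⟨g • P, smul_max hP g, fun l hl h2 => hS l hl ((nat_mem_smul g l).1 h2), inertia_smul g h⟩

/-- `f` is trivial on the inertia at all primes above `p`, if it is trivial at one of them -/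
lemma one_prime {C : Subgroup (GF ℚ)} {E : Type} [CommGroup E] (f : C →* E)
    {P P' : Ideal (OO ℚ)} {c : GF ℚ} (hc : c ∈ C) (hcP : c • P = P')
    (h : ∀ τ : C, InInertia P (τ : GF ℚ) → f τ = 1) (τ : C) (hτ : InInertia P' (τ : GF ℚ)) :
    f τ = 1 := by
  rw [← hcP, inertia_smul_iff] at hτ
  set c' : C := ⟨c, hc⟩ with hc'
  have e : ((c'⁻¹ * τ * c' : C) : GF ℚ) = c⁻¹ * (τ : GF ℚ) * c := rfl
  have h1 := h (c'⁻¹ * τ * c') (by rw [e]; exact hτ)
  rw [map_mul, map_mul, map_inv, mul_comm _ (f τ), inv_mul_cancel_right] at h1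
  exact h1

/-- one prime above `p`, no unramified extension -/
theorem det_one {p : ℕ} {C : Subgroup (GF ℚ)}
    (hNo : ∀ f : C →* Multiplicative (ZMod p), IsOpen (f.ker : Set C) →
      (∀ P : Ideal (OO ℚ), P.IsMaximal → ∀ τ : C, InInertia P (τ : GF ℚ) → f τ = 1) → ∀ g, f g = 1)
    {P : Ideal (OO ℚ)} (hPP : ∀ P' : Ideal (OO ℚ), P'.IsMaximal → (p : OO ℚ) ∈ P' →
      ∃ c ∈ C, c • P = P') {X : Subgroup (GF ℚ)} (hX : ∀ τ, InInertia P τ → τ ∈ X) :
    Det p (outer {p}) C X := by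
  intro f hf h1 h2
  refine hNo f hf fun P' hP' τ hτ => ?_
  by_cases hp : (p : OO ℚ) ∈ P'
  · obtain ⟨c, hc, hcP⟩ := hPP P' hP' hp
    exact one_prime f hc hcP (fun τ hτ => h2 τ (hX _ hτ)) τ hτ
  · exact h1 τ ⟨P', hP', fun l hl => by rw [Set.mem_singleton_iff] at hl; rwa [hl], hτ⟩

/-- the primes above `p` are conjugate over `ℚ(ζ_p)` -/
lemma conj_cyc {p : ℕ} (hp : p.Prime) {P P' : Ideal (OO ℚ)} (hP : P.IsMaximal) (hP' : P'.IsMaximal)
    (hpP : (p : OO ℚ) ∈ P) (hpP' : (p : OO ℚ) ∈ P') : ∃ c ∈ HH p, c • P = P' := by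
  obtain ⟨g, hg⟩ := Pool.Agent.W571.FM.exists_smul P P' hP.isPrime hP'.isPrime
    ((Pool.Agent.W571.FM.cm_eq hp hP hpP).trans (Pool.Agent.W571.FM.cm_eq hp hP' hpP').symm)
  have hgP : g • P = P' := by
    ext x
    rw [Ideal.mem_pointwise_smul_iff_inv_smul_mem]
    exact (hg x).symm
  obtain ⟨t, ht, hth⟩ := Pool.Agent.W398.UH.main p hp P hP hpP g
  refine ⟨g * t⁻¹, ?_, ?_⟩
  · have h4 := (normal_HH p).conj_mem _ hth t
    have h5 : t * (t⁻¹ * g) * t⁻¹ = g * t⁻¹ := by group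
    rwa [h5] at h4
  · have h1 : t⁻¹ • P = P := by
      have h2 : ∀ t : GF ℚ, InInertia P t → t • P ≤ P := by
        intro t ht x hx
        rw [Ideal.mem_pointwise_smul_iff_inv_smul_mem] at hx
        have h3 := ht (t⁻¹ • x)
        rw [smul_inv_smul] at h3
        have h4 := P.add_mem h3 hx
        rwa [sub_add_cancel] at h4
      have ht' : InInertia P t⁻¹ := inInertia_inv ht
      refine le_antisymm (h2 _ ht') ?_
      intro x hx
      rw [Ideal.mem_pointwise_smul_iff_inv_smul_mem, inv_inv]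
      have := h2 t ht (Ideal.smul_mem_pointwise_smul t x P hx)
      exact this
    rw [mul_smul, h1, hgP]

/-- **regular primes** -/
theorem det_cyc {p : ℕ} (hp : p.Prime) (hreg : p ≤ 7 ∨ NoUnr p) {P : Ideal (OO ℚ)}
    (hP : P.IsMaximal) (hpP : (p : OO ℚ) ∈ P) {X : Subgroup (GF ℚ)}
    (hX : ∀ τ, InInertia P τ → τ ∈ X) : Det p (outer {p}) (HH p) X := by
  have hreg' : NoUnr p := by
    rcases hreg with h | h
    · exact reg p hp h
    · exact h
  exact det_one hreg' (fun P' hP' hp' => conj_cyc hp hP hP' hpP hp') hX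

/-- **the rational numbers** -/
theorem det_rat {p q : ℕ} (hp : p.Prime) (hq : q.Prime)
    (hpq : p ∣ q - 1) (hpow : (p : ZMod q) ^ ((q - 1) / p) ≠ 1) {S : Set ℕ}
    (hS : ∀ l ∈ S, l.Prime ∧ (p ∣ l - 1 → l = q)) {P : Ideal (OO ℚ)} (hP : P.IsMaximal)
    (hpP : (p : OO ℚ) ∈ P) {X : Subgroup (GF ℚ)} (hX : ∀ σ : GF ℚ, σ • P = P → σ ∈ X) :
    Det p (outer S) ⊤ X := by
  have : Fact p.Prime := ⟨hp⟩
  have hqp : p ≠ q := by
    rintro rfl
    have h1 := Nat.le_of_dvd (by have := hp.two_le; omega) hpq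
    have := hp.two_le
    omega
  have hTAME := Pool.Agent.W327.FM.main Pool.Agent.W258.FM.main
  intro f hf h1 h2
  -- to the whole group
  set F : GF ℚ →* Multiplicative (ZMod p) := f.comp (Subgroup.topEquiv.symm : GF ℚ ≃* (⊤ : Subgroup (GF ℚ))).toMonoidHom
    with hF
  have hFf : ∀ g : (⊤ : Subgroup (GF ℚ)), f g = F g := fun g => rfl
  have hFo : IsOpen (F.ker : Set (GF ℚ)) := by
    have hc : Continuous (fun g : GF ℚ => (⟨g, trivial⟩ : (⊤ : Subgroup (GF ℚ)))) :=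
      continuous_id.subtype_mk _
    exact hf.preimage hc
  have hF1 : ∀ P' : Ideal (OO ℚ), P'.IsMaximal → (∀ l ∈ S, (l : OO ℚ) ∉ P') → ∀ τ, InInertia P' τ →
      F τ = 1 := fun P' hP' hS' τ hτ => h1 ⟨τ, trivial⟩ ⟨P', hP', hS', hτ⟩
  have hF2 : ∀ σ : GF ℚ, σ • P = P → F σ = 1 := fun σ hσ => h2 ⟨σ, trivial⟩ (hX σ hσ)
  -- inertia groups are in the decomposition groups
  have hin : ∀ (P : Ideal (OO ℚ)) (t : GF ℚ), InInertia P t → t • P = P := by
    intro P t ht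
    have h2 : ∀ t : GF ℚ, InInertia P t → t • P ≤ P := by
      intro t ht x hx
      rw [Ideal.mem_pointwise_smul_iff_inv_smul_mem] at hx
      have h3 := ht (t⁻¹ • x)
      rw [smul_inv_smul] at h3
      have h4 := P.add_mem h3 hx
      rwa [sub_add_cancel] at h4
    refine le_antisymm (h2 _ ht) ?_
    intro x hx
    have := h2 _ (inInertia_inv ht) (Ideal.smul_mem_pointwise_smul t⁻¹ x P hx)
    rwa [Ideal.mem_pointwise_smul_iff_inv_smul_mem]
  have hPg : IsPGroup p (Multiplicative (ZMod p)) := by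
    apply IsPGroup.of_card (n := 1)
    rw [Nat.card_congr Multiplicative.toAdd, Nat.card_zmod, pow_one]
  -- `F` is unramified at all primes except `q`
  have hF3 : ∀ P' : Ideal (OO ℚ), P'.IsMaximal → (q : OO ℚ) ∉ P' → ∀ τ, InInertia P' τ → F τ = 1 := by
    intro P' hP' hqP' τ hτ
    by_cases hex : ∃ l ∈ S, (l : OO ℚ) ∈ P'
    · obtain ⟨l, hl, hlP'⟩ := hex
      obtain ⟨hlp, hlq⟩ := hS l hl
      by_cases hlp' : l = p
      · subst hlp'
        obtain ⟨g, hg⟩ := Pool.Agent.W571.FM.exists_smul P P' hP.isPrime hP'.isPrime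
          ((Pool.Agent.W571.FM.cm_eq hp hP hpP).trans (Pool.Agent.W571.FM.cm_eq hp hP' hlP').symm)
        have h3 := Pool.Agent.W571.FM.inertia_conj hg hτ
        have h4 := hF2 _ (hin _ _ h3)
        rw [map_mul, map_mul, map_inv, mul_comm _ (F τ), inv_mul_cancel_right] at h4
        exact h4
      · -- tame
        obtain ⟨σ, hσ⟩ := Pool.Agent.W924.UF.frobp l hlp P' hP' hlP'
        have h3 := (hTAME p l hp hlp (Ne.symm hlp') _ hPg F hFo P' hP' hlP').1 τ hτ σ hσ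
        rw [map_mul, map_mul, map_inv, mul_comm (F σ), mul_inv_cancel_right] at h3
        -- `F τ = F τ ^ l`
        have h4 : ¬ p ∣ l - 1 := fun h => hqP' (by rw [← hlq h]; exact hlP')
        have h5 : Multiplicative.toAdd (F τ) = (l : ZMod p) * Multiplicative.toAdd (F τ) := by
          conv_lhs => rw [h3]
          rw [toAdd_pow, nsmul_eq_mul]
        have h6 : ((l : ZMod p) - 1) * Multiplicative.toAdd (F τ) = 0 := by
          rw [sub_mul, ← h5, one_mul, sub_self]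
        rcases mul_eq_zero.1 h6 with h7 | h7
        · exfalso
          apply h4
          rw [← ZMod.natCast_eq_zero_iff, Nat.cast_sub hlp.one_lt.le, Nat.cast_one]
          exact h7
        · exact Multiplicative.toAdd.injective h7
    · push Not at hex
      exact hF1 P' hP' hex τ hτ
  -- the character of conductor `q`
  obtain ⟨ψ, hψo, hψ1, ⟨g₀, hg₀⟩, hψ2⟩ := Pool.Agent.W134.FM.main p q hp hq hpq
  -- a prime above `q`
  obtain ⟨⟨Q, hQ, hqQ, -⟩, hconj⟩ := Pool.Agent.W571.FM.main q hq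
  -- the pair
  have hPg2 : IsPGroup p (Multiplicative (ZMod p) × Multiplicative (ZMod p)) := by
    apply IsPGroup.of_card (n := 2)
    rw [Nat.card_prod, Nat.card_congr Multiplicative.toAdd, Nat.card_zmod, pow_two]
  have hpair : IsOpen ((F.prod ψ).ker : Set (GF ℚ)) := by
    have : ((F.prod ψ).ker : Set (GF ℚ)) = (F.ker : Set (GF ℚ)) ∩ (ψ.ker : Set (GF ℚ)) := by
      ext x
      simp [MonoidHom.mem_ker, Prod.ext_iff]
    rw [this]
    exact hFo.inter hψo
  obtain ⟨τ₀, hτ₀, hgen⟩ := (hTAME p q hp hq hqp _ hPg2 (F.prod ψ) hpair Q hQ hqQ).2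
  have hψτ : ψ τ₀ ≠ 1 := by
    intro h
    apply hg₀
    refine Pool.Agent.W215.FM.main _ ψ hψo (fun P' hP' τ hτ => ?_) g₀
    by_cases hqP' : (q : OO ℚ) ∈ P'
    · obtain ⟨g, hg⟩ := hconj Q P' hQ hP' hqQ hqP'
      obtain ⟨k, hk⟩ := Subgroup.mem_zpowers_iff.1 (hgen _ (hg τ hτ))
      have h3 := congrArg Prod.snd hk
      have h4 : ψ τ₀ ^ k = ψ (g⁻¹ * τ * g) := h3
      rw [h, one_zpow, map_mul, map_mul, map_inv, mul_comm _ (ψ τ), inv_mul_cancel_right] at h4
      exact h4.symm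
    · exact hψ1 P' hP' hqP' τ hτ
  -- `F` is a power of `ψ`
  obtain ⟨c, hc⟩ : ∃ c : ℕ, F τ₀ = ψ τ₀ ^ c := by
    have h3 : Multiplicative.toAdd (ψ τ₀) ≠ 0 := fun h => hψτ (Multiplicative.toAdd.injective h)
    refine ⟨(Multiplicative.toAdd (F τ₀) * (Multiplicative.toAdd (ψ τ₀))⁻¹).val, ?_⟩
    apply Multiplicative.toAdd.injective
    rw [toAdd_pow, nsmul_eq_mul, ZMod.natCast_zmod_val, inv_mul_cancel_right₀ h3]
  have hFψ : ∀ g, F g * (ψ g ^ c)⁻¹ = 1 := by
    set D : GF ℚ →* Multiplicative (ZMod p) := F * (ψ ^ c)⁻¹ with hD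
    have hDa : ∀ g, D g = F g * (ψ g ^ c)⁻¹ := fun g => rfl
    refine fun g => (hDa g).symm.trans (Pool.Agent.W215.FM.main _ D ?_ (fun P' hP' τ hτ => ?_) g)
    · refine Subgroup.isOpen_mono (H₁ := F.ker ⊓ ψ.ker) (fun x hx => ?_) (hFo.inter hψo)
      rw [MonoidHom.mem_ker, hDa, (MonoidHom.mem_ker).1 hx.1, (MonoidHom.mem_ker).1 hx.2]
      simp
    · by_cases hqP' : (q : OO ℚ) ∈ P'
      · obtain ⟨g, hg⟩ := hconj Q P' hQ hP' hqQ hqP'
        obtain ⟨k, hk⟩ := Subgroup.mem_zpowers_iff.1 (hgen _ (hg τ hτ))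
        have h4 : ψ τ₀ ^ k = ψ (g⁻¹ * τ * g) := congrArg Prod.snd hk
        have h5 : F τ₀ ^ k = F (g⁻¹ * τ * g) := congrArg Prod.fst hk
        rw [map_mul, map_mul, map_inv, mul_comm _ (ψ τ), inv_mul_cancel_right] at h4
        rw [map_mul, map_mul, map_inv, mul_comm _ (F τ), inv_mul_cancel_right] at h5
        rw [hDa, ← h4, ← h5, hc, ← zpow_natCast, ← zpow_natCast, zpow_comm, mul_inv_cancel]
      · rw [hDa, hF3 P' hP' hqP' τ hτ, hψ1 P' hP' hqP' τ hτ]
        simp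
  -- the Frobenius element at `P`
  obtain ⟨σ, hσ⟩ := Pool.Agent.W924.UF.frobp p hp P hP hpP
  have hσP : σ • P = P := by
    have h3 : σ • P ≤ P := by
      intro x hx
      rw [Ideal.mem_pointwise_smul_iff_inv_smul_mem] at hx
      have h4 := hσ (σ⁻¹ • x)
      rw [smul_inv_smul] at h4
      have h5 := P.add_mem h4 (P.pow_mem_of_mem hx p hp.pos)
      rwa [sub_add_cancel] at h5
    exact (smul_max hP σ).eq_of_le hP.ne_top h3
  have h3 := hF2 σ hσP
  have h4 := hFψ σ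
  rw [h3, one_mul, inv_eq_one] at h4
  have h5 : ψ σ ≠ 1 := fun h => hpow ((hψ2 p hp hqp P hP hpP σ hσ).1 h)
  have h6 : (c : ZMod p) * Multiplicative.toAdd (ψ σ) = 0 := by
    have := congrArg Multiplicative.toAdd h4
    rwa [toAdd_pow, nsmul_eq_mul] at this
  have h7 : (c : ZMod p) = 0 := by
    rcases mul_eq_zero.1 h6 with h | h
    · exact h
    · exact absurd (Multiplicative.toAdd.injective h) h5
  intro g
  rw [hFf]
  have h8 := hFψ g
  have h9 : ψ (g : GF ℚ) ^ c = 1 := by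
    apply Multiplicative.toAdd.injective
    rw [toAdd_pow, nsmul_eq_mul, h7, zero_mul]
    rfl
  rw [h9, inv_one, mul_one] at h8
  exact h8

end Pool.Agent.U172.FM
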